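import Pool.Agent.Helper23.HNG.Map
import Pool.Agent.Helper37.RP.Inst
import Pool.Agent.Helper63.NPD.Surj
import Pool.Agent.Helper47.NI.Hom

set_option autoImplicit false
set_option linter.unusedVariables false
set_option linter.unusedSectionVars false

/-!
# The two double coverings for all `m`

`NN A`: the antisymmetric matrix `det (e_i, e_j, A_0, .., A_(m-1))`. `Mq c y`: the matrix of the
quadratic form `Q(· , y)`. `dblX c`: the two double coverings with the forms `cG c`, `cG (c ∘ sw)`.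
`gG_nx`, `gG_ny`: over `y` (over `x`) the forms are, up to a factor, the symmetric product of the
point with the second point `nx` (`ny`).
-/

namespace Pool.Agent.Helper23.HNG

open MvPolynomial Pool.Agent.Helper28.HN
open Pool.Agent.Helper37.RP (IsLine bil gram pr bil_lin bil_comm gram_eq_bil exists_other exists_pt
  isHomogeneous_gram gram_zero map_gram)

universe u

section ring

variable {m : ℕ} {S : Type*} [CommRing S]

/-- The matrix `det (e_i, e_j, A_0, .., A_(m-1))`. -/
noncomputable def NN (A : Fin m → I m → S) : Matrix (I m) (I m) S :=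
  Matrix.of fun i j => cr A (Pi.single j 1) i

theorem NN_apply (A : Fin m → I m → S) (i j : I m) : NN A i j = cr A (Pi.single j 1) i := rfl

/-- The matrix with the rows `u`, `v` and `A`. -/
def rows (u v : I m → S) (A : Fin m → I m → S) : Matrix (I m) (I m) S :=
  Matrix.of (Fin.cons u (Fin.cons v A) : Fin (m + 2) → I m → S)

theorem NN_eq (A : Fin m → I m → S) (i j : I m) :
    NN A i j = (rows (Pi.single i 1) (Pi.single j 1) A).det := rfl

theorem rows_zero (u v : I m → S) (A : Fin m → I m → S) : rows u v A 0 = u := rfl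

theorem rows_one (u v : I m → S) (A : Fin m → I m → S) : rows u v A 1 = v := rfl

theorem rows_succ (u v : I m → S) (A : Fin m → I m → S) (r : Fin m) :
    rows u v A r.succ.succ = A r := rfl

theorem ss_ne_zero (r : Fin m) : (r.succ.succ : Fin (m + 2)) ≠ 0 := Fin.succ_ne_zero _

theorem ss_ne_one (r : Fin m) : (r.succ.succ : Fin (m + 2)) ≠ 1 := fun h =>
  Fin.succ_ne_zero r (Fin.succ_injective _ h)

theorem zero_ne_one' : (0 : Fin (m + 2)) ≠ 1 := fun h => by
  have := congrArg Fin.val h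
  simp at this

/-- Case distinction. -/
theorem cases3 {P : Fin (m + 2) → Prop} (h0 : P 0) (h1 : P 1) (h2 : ∀ r : Fin m, P r.succ.succ)
    (i : Fin (m + 2)) : P i :=
  Fin.cases h0 (fun i => Fin.cases h1 h2 i) i

theorem updateRow_zero (u v w : I m → S) (A : Fin m → I m → S) :
    (rows u v A).updateRow 0 w = rows w v A := by
  ext i j
  revert i
  refine cases3 ?_ ?_ fun r => ?_
  · rw [Matrix.updateRow_self]
    rfl
  · rw [Matrix.updateRow_ne zero_ne_one'.symm]
    rfl
  · rw [Matrix.updateRow_ne (ss_ne_zero r)]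
    rfl

theorem updateRow_one (u v w : I m → S) (A : Fin m → I m → S) :
    (rows u v A).updateRow 1 w = rows u w A := by
  ext i j
  revert i
  refine cases3 ?_ ?_ fun r => ?_
  · rw [Matrix.updateRow_ne zero_ne_one']
    rfl
  · rw [Matrix.updateRow_self]
    rfl
  · rw [Matrix.updateRow_ne (ss_ne_one r)]
    rfl

theorem det_swap (u v : I m → S) (A : Fin m → I m → S) :
    (rows u v A).det = -(rows v u A).det := by
  have h := Matrix.det_permute (Equiv.swap (0 : Fin (m + 2)) 1) (rows u v A)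
  have h2 : (rows u v A).submatrix (Equiv.swap (0 : Fin (m + 2)) 1) id = rows v u A := by
    ext i j
    revert i
    refine cases3 ?_ ?_ fun r => ?_
    · rw [Matrix.submatrix_apply, Equiv.swap_apply_left]
      rfl
    · rw [Matrix.submatrix_apply, Equiv.swap_apply_right]
      rfl
    · rw [Matrix.submatrix_apply, Equiv.swap_apply_of_ne_of_ne (ss_ne_zero r) (ss_ne_one r)]
      rfl
  rw [h2, Equiv.Perm.sign_swap zero_ne_one'] at h
  rw [h]
  simp

theorem NN_anti (A : Fin m → I m → S) (i j : I m) : NN A i j = -NN A j i := by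
  rw [NN_eq, NN_eq, det_swap]

theorem NN_diag (A : Fin m → I m → S) (i : I m) : NN A i i = 0 := by
  rw [NN_eq]
  exact Matrix.det_zero_of_row_eq (i := 0) (j := 1) zero_ne_one' rfl

/-- `A x = 0` implies that `NN A` is the Pluecker matrix of a line through `x`. -/
theorem isLine_NN (A : Fin m → I m → S) (x : I m → S) (h : ∀ r, ∑ i, A r i * x i = 0) :
    IsLine (NN A) x := by
  refine ⟨NN_anti A, fun i j l => ?_⟩
  have hB := Matrix.adjugate_mul (rows (Pi.single j 1) (Pi.single l 1) A)
  have hv := congrArg (fun M => M.mulVec x i) hB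
  simp only [← Matrix.mulVec_mulVec, Matrix.smul_mulVec, Matrix.one_mulVec, Pi.smul_apply,
    smul_eq_mul] at hv
  have hx : (rows (Pi.single j 1) (Pi.single l 1) A).mulVec x =
      Fin.cons (x j) (Fin.cons (x l) fun _ => 0) := by
    funext a
    revert a
    refine cases3 ?_ ?_ fun r => ?_
    · rw [Matrix.mulVec, rows_zero]
      simp
    · rw [Matrix.mulVec, rows_one]
      simp only [single_dotProduct, one_mul]
      rfl
    · rw [Matrix.mulVec, rows_succ]
      exact h r
  rw [hx, Matrix.mulVec, dotProduct, Fin.sum_univ_succ, Fin.sum_univ_succ] at hv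
  simp only [Fin.cons_zero, Fin.cons_succ, mul_zero, Finset.sum_const_zero, add_zero,
    Matrix.adjugate_apply] at hv
  have h1 : (Fin.succ 0 : Fin (m + 2)) = 1 := rfl
  rw [h1, updateRow_zero, updateRow_one, ← NN_eq, ← NN_eq, ← NN_eq] at hv
  rw [NN_anti A l i, NN_anti A i j]
  linear_combination -hv

theorem dot_NN (A : Fin m → I m → S) (r : Fin m) (j : I m) : ∑ i, A r i * NN A i j = 0 := by
  have h : ∑ i, A r i * NN A i j = (rows (A r) (Pi.single j 1) A).det := by
    have e : (rows (0 : I m → S) (Pi.single j 1) A).updateRow 0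
        (∑ i, A r i • (Pi.single i 1 : I m → S)) = rows (A r) (Pi.single j 1) A := by
      rw [updateRow_zero]
      congr 1
      funext l
      simp [Finset.sum_apply, Pi.single_apply]
    have e2 := (Matrix.detRowAlternating (R := S) (n := I m)).toMultilinearMap.map_update_sum
      Finset.univ 0 (fun i => A r i • (Pi.single i 1 : I m → S))
      (rows (0 : I m → S) (Pi.single j 1) A)
    rw [← e]
    refine Eq.trans ?_ e2.symm
    refine Finset.sum_congr rfl fun i _ => ?_
    have e3 := Matrix.det_updateRow_smul (rows (0 : I m → S) (Pi.single j 1) A) 0 (A r i)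
      (Pi.single i 1)
    have e4 : NN A i j = ((rows (0 : I m → S) (Pi.single j 1) A).updateRow 0
        (Pi.single i 1)).det := by
      rw [updateRow_zero]
      rfl
    rw [e4]
    exact e3.symm
  rw [h]
  exact Matrix.det_zero_of_row_eq (i := 0) (j := r.succ.succ) (ss_ne_zero r).symm rfl

/-- The matrix of the quadratic form `Q(· , y)`. -/
def Mq (c : Ix m → S) (y : I m → S) : Matrix (I m) (I m) S :=
  fun i j => ∑ k, ∑ l, pq c i j k l * y k * y l

theorem pq_symm (c : Ix m → S) (i j k l : I m) : pq c i j k l = pq c j i k l := by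
  simp only [pq]
  ring

theorem pq_symm' (c : Ix m → S) (i j k l : I m) : pq c i j k l = pq c i j l k := by
  simp only [pq]
  ring

theorem Mq_symm (c : Ix m → S) (y : I m → S) (i j : I m) : Mq c y i j = Mq c y j i := by
  simp only [Mq, pq_symm c i j]

theorem qf_eq (c : Ix m → S) (x x' y : I m → S) : qf c x x' y y = bil (Mq c y) x x' := by
  unfold qf bil Mq
  refine Finset.sum_congr rfl fun i _ => Finset.sum_congr rfl fun j _ => ?_
  rw [Finset.mul_sum, Finset.sum_mul]
  refine Finset.sum_congr rfl fun k _ => ?_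
  rw [Finset.mul_sum, Finset.sum_mul]
  exact Finset.sum_congr rfl fun l _ => by ring

theorem lf_eq (c : Ix m → S) (r : Fin m) (x y : I m → S) :
    lf c r x y = ∑ i, rw' c y r i * x i := by
  unfold lf rw'
  refine Finset.sum_congr rfl fun i _ => ?_
  rw [Finset.sum_mul]
  exact Finset.sum_congr rfl fun j _ => by ring

theorem sw_sw (e : Ix m) : sw (sw e) = e := by
  rcases e with ⟨r, i, j⟩ | ⟨i, j, k, l⟩ <;> rfl

/-- Exchange of the two factors. -/
def swc {X : Type*} (c : Ix m → X) : Ix m → X := fun e => c (sw e)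

theorem swc_swc {X : Type*} (c : Ix m → X) : swc (swc c) = c := by
  funext e
  simp only [swc, sw_sw]

theorem lf_sw (c : Ix m → S) (r : Fin m) (x y : I m → S) : lf (swc c) r y x = lf c r x y := by
  unfold lf
  rw [Finset.sum_comm]
  refine Finset.sum_congr rfl fun i _ => Finset.sum_congr rfl fun j _ => ?_
  simp only [swc, sw]
  ring

theorem pq_sw (c : Ix m → S) (i j k l : I m) : pq (swc c) i j k l = pq c k l i j := by
  simp only [pq, swc, sw]
  ring

theorem qf_sw (c : Ix m → S) (x x' y y' : I m → S) : qf (swc c) y y' x x' = qf c x x' y y' := by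
  unfold qf
  simp only [pq_sw]
  have e1 : ∀ f : I m → I m → I m → I m → S,
      ∑ i, ∑ j, ∑ k, ∑ l, f i j k l = ∑ k, ∑ l, ∑ i, ∑ j, f i j k l := by
    intro f
    calc ∑ i, ∑ j, ∑ k, ∑ l, f i j k l = ∑ i, ∑ k, ∑ j, ∑ l, f i j k l :=
          Finset.sum_congr rfl fun i _ => Finset.sum_comm
      _ = ∑ k, ∑ i, ∑ j, ∑ l, f i j k l := Finset.sum_comm
      _ = ∑ k, ∑ i, ∑ l, ∑ j, f i j k l :=
          Finset.sum_congr rfl fun k _ => Finset.sum_congr rfl fun i _ => Finset.sum_comm
      _ = ∑ k, ∑ l, ∑ i, ∑ j, f i j k l := Finset.sum_congr rfl fun k _ => Finset.sum_comm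
  rw [e1]
  refine Finset.sum_congr rfl fun i _ => Finset.sum_congr rfl fun j _ =>
    Finset.sum_congr rfl fun k _ => Finset.sum_congr rfl fun l _ => ?_
  ring

theorem onX_sw (c : Ix m → S) (x y : I m → S) : OnX (swc c) y x ↔ OnX c x y := by
  unfold OnX
  rw [qf_sw]
  simp only [lf_sw]

theorem gG_eq (c : Ix m → S) (y : I m → S) (p : I m × I m) :
    gG c y p = gram (Mq c y) (NN (rw' c y)) p.1 p.2 := by
  rw [gG, gram_eq_bil, qf_eq]
  rfl

/-- The identity behind the second point. -/
theorem wedge_eq {N : Matrix (I m) (I m) S} {x ξ : I m → S} (hx : IsLine N x) (hξ : IsLine N ξ)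
    (i i' j l : I m) : (x i * ξ i' - x i' * ξ i) * N j l = (x j * ξ l - x l * ξ j) * N i i' := by
  have a1 := hx.cyc i j l
  have a2 := hx.cyc i' j l
  have a3 := hξ.cyc i i' l
  have a4 := hξ.cyc i i' j
  have b4 := hx.anti j i
  have b5 := hx.anti l i'
  linear_combination ξ i' * a1 - ξ i * a2 - x j * a3 + x l * a4 - ξ i' * x l * b4 +
    ξ i * x j * b5

/-- The second point of a line on a quadric, as in `nx`. -/
def sp (M : Matrix (I m) (I m) S) (ξ x : I m → S) : I m → S :=
  fun i => bil M ξ ξ * x i - 2 * bil M x ξ * ξ i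

theorem sp_gram {M N : Matrix (I m) (I m) S} (hM : ∀ i j, M i j = M j i) {x ξ : I m → S}
    (hx : IsLine N x) (hξ : IsLine N ξ) (h0 : bil M x x = 0) (j l a b : I m) :
    N j l ^ 2 * pr x (sp M ξ x) a b = (x j * ξ l - x l * ξ j) ^ 2 * gram M N a b := by
  have e1 : ∀ d : I m, (fun i => (x j * ξ l - x l * ξ j) * N i d + 0 * N i d) =
      fun i => (N j l * ξ d) * x i + (-(N j l * x d)) * ξ i := by
    intro d
    funext i
    linear_combination -wedge_eq hx hξ i d j l
  have e2 := bil_lin M (x j * ξ l - x l * ξ j) 0 (x j * ξ l - x l * ξ j) 0 (fun i => N i a)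
    (fun i => N i a) (fun i => N i b) (fun i => N i b)
  rw [e1 a, e1 b, bil_lin, h0, bil_comm hM ξ x] at e2
  rw [gram_eq_bil]
  simp only [pr, Matrix.of_apply, sp]
  linear_combination 2 * e2

theorem lf_sum_x (c : Ix m → S) (r : Fin m) (x y : I m → S) :
    lf c r x y = ∑ i, x i * lf c r (Pi.single i 1) y := by
  have e : ∀ i, lf c r (Pi.single i 1) y = rw' c y r i := by
    intro i
    rw [lf_eq, Finset.sum_eq_single i]
    · simp
    · intro j _ hj
      simp [Pi.single_eq_of_ne hj]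
    · simp
  rw [lf_eq]
  refine Finset.sum_congr rfl fun i _ => ?_
  rw [e]
  ring

theorem lf_sum_y (c : Ix m → S) (r : Fin m) (x y : I m → S) :
    lf c r x y = ∑ i, y i * lf c r x (Pi.single i 1) := by
  rw [← lf_sw, lf_sum_x]
  refine Finset.sum_congr rfl fun i _ => ?_
  rw [lf_sw]

theorem ker_adj (M : Matrix (Fin m) (Fin m) S) (b : Fin m → S) (r : Fin m) :
    ∑ i, (M.adjugate.mulVec b) i * M r i = M.det * b r := by
  have h : M.mulVec (M.adjugate.mulVec b) = M.det • b := by
    rw [Matrix.mulVec_mulVec, Matrix.mul_adjugate, Matrix.smul_mulVec, Matrix.one_mulVec]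
  have h2 := congrFun h r
  rw [Pi.smul_apply, smul_eq_mul] at h2
  rw [← h2, Matrix.mulVec, dotProduct]
  exact Finset.sum_congr rfl fun i _ => mul_comm _ _

theorem lf_xh (c : Ix m → S) (y : I m → S) (r : Fin m) : lf c r (xh c y) y = 0 := by
  rw [lf_sum_x, Fin.sum_univ_succ, Fin.sum_univ_castSucc]
  simp only [xh, vh, Fin.cons_zero, Fin.cons_succ, Fin.snoc_castSucc, Fin.snoc_last, zero_mul,
    zero_add, Pi.neg_apply, neg_mul, Finset.sum_neg_distrib]
  have h := ker_adj (Nx c y) (fun r => lf c r (Pi.single (Fin.last (m + 1)) 1) y) r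
  have h2 : ∀ i : Fin m, Nx c y r i = lf c r (Pi.single i.castSucc.succ 1) y := fun i => rfl
  simp only [h2] at h
  rw [h, Fin.succ_last]
  ring

theorem lf_Y1 (c : Ix m → S) (x : I m → S) (r : Fin m) : lf c r x (Y1 c x) = 0 := by
  rw [lf_sum_y, Fin.sum_univ_succ, Fin.sum_univ_succ]
  simp only [Y1, Fin.cons_zero, Fin.cons_succ, zero_mul, zero_add, Pi.neg_apply, neg_mul,
    Finset.sum_neg_distrib]
  have h := ker_adj (Mx c x) (fun r => lf c r x (Pi.single 1 1)) r
  have h2 : ∀ i : Fin m, Mx c x r i = lf c r x (Pi.single i.succ.succ 1) := fun i => rfl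
  simp only [h2] at h
  rw [h]
  have h1 : (Fin.succ 0 : Fin (m + 2)) = 1 := rfl
  rw [h1]
  ring

theorem lf_Y0 (c : Ix m → S) (x : I m → S) (r : Fin m) : lf c r x (Y0 c x) = 0 := by
  rw [lf_sum_y, Fin.sum_univ_succ, Fin.sum_univ_succ]
  simp only [Y0, Fin.cons_zero, Fin.cons_succ, zero_mul, zero_add, Pi.neg_apply, neg_mul,
    Finset.sum_neg_distrib]
  have h := ker_adj (Mx c x) (fun r => lf c r x (Pi.single 0 1)) r
  have h2 : ∀ i : Fin m, Mx c x r i = lf c r x (Pi.single i.succ.succ 1) := fun i => rfl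
  simp only [h2] at h
  rw [h]
  ring

theorem lf_yh (c : Ix m → S) (x : I m → S) (z : S) (r : Fin m) : lf c r x (yh c x z) = 0 := by
  have e : lf c r x (yh c x z) = lf c r x (Y0 c x) + z * lf c r x (Y1 c x) := by
    rw [lf_sum_y c r x (yh c x z), lf_sum_y c r x (Y0 c x), lf_sum_y c r x (Y1 c x),
      Finset.mul_sum, ← Finset.sum_add_distrib]
    refine Finset.sum_congr rfl fun i _ => ?_
    simp only [yh]
    ring
  rw [e, lf_Y0, lf_Y1]
  ring

theorem isLine_x (c : Ix m → S) {x y : I m → S} (h : ∀ r, lf c r x y = 0) :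
    IsLine (NN (rw' c y)) x := isLine_NN _ _ fun r => by rw [← lf_eq]; exact h r

theorem nx_eq (c : Ix m → S) (x y : I m → S) : nx c x y = sp (Mq c y) (xh c y) x := by
  funext i
  simp only [nx, sp, qf_eq]

theorem ny_eq (c : Ix m → S) (x y : I m → S) : ny c x y = sp (Mq (swc c) x) (Y1 c x) y := by
  funext i
  simp only [ny, sp, Ah, ← qf_eq, qf_sw]

theorem map_Mq {T : Type*} [CommRing T] (f : S →+* T) (c : Ix m → S) (y : I m → S) :
    (Mq c y).map f = Mq (fun e => f (c e)) (fun i => f (y i)) := by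
  ext i j
  simp only [Mq, Matrix.map_apply, map_sum, map_mul, map_pq]

theorem eval_cG (c : Ix m → S) (y : I m → S) (p : I m × I m) :
    eval y (cG c p) = gG c y p := by
  rw [cG, map_gG (eval y)]
  simp only [eval_C, eval_X]

theorem aeval_cG {T : Type*} [CommRing T] [Algebra S T] (c : Ix m → S) (y : I m → T)
    (p : I m × I m) :
    aeval y (cG c p) = gG (fun e => algebraMap S T (c e)) y p := by
  have h := map_gG ((aeval y : MvPolynomial (I m) S →ₐ[S] T) : MvPolynomial (I m) S →+* T)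
    (fun e => C (c e)) X p
  rw [cG]
  refine Eq.trans h ?_
  congr 1
  · funext e
    exact aeval_C _ _
  · funext i
    exact aeval_X _ _

theorem map_cG {T : Type*} [CommRing T] (f : S →+* T) (c : Ix m → S) (p : I m × I m) :
    MvPolynomial.map f (cG c p) = cG (fun e => f (c e)) p := by
  rw [cG, map_gG (MvPolynomial.map f)]
  simp only [map_C, map_X]
  rfl

theorem isHomogeneous_pq (c : Ix m → S) (i j k l : I m) :
    (pq (fun e => (C (c e) : MvPolynomial (I m) S)) i j k l).IsHomogeneous 0 := by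
  have h : pq (fun e => (C (c e) : MvPolynomial (I m) S)) i j k l = C (pq c i j k l) := by
    simp only [pq, map_add]
  rw [h]
  exact isHomogeneous_C _ _

theorem isHomogeneous_Mq (c : Ix m → S) (i j : I m) :
    (Mq (fun e => (C (c e) : MvPolynomial (I m) S)) X i j).IsHomogeneous 2 := by
  unfold Mq
  refine IsHomogeneous.sum _ _ _ fun k _ => IsHomogeneous.sum _ _ _ fun l _ => ?_
  have := ((isHomogeneous_pq c i j k l).mul (isHomogeneous_X S k)).mul (isHomogeneous_X S l)
  simpa using this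

theorem isHomogeneous_rw' (c : Ix m → S) (r : Fin m) (i : I m) :
    (rw' (fun e => (C (c e) : MvPolynomial (I m) S)) X r i).IsHomogeneous 1 := by
  unfold rw'
  refine IsHomogeneous.sum _ _ _ fun k _ => ?_
  have := (isHomogeneous_C (I m) (c (.inl (r, i, k)))).mul (isHomogeneous_X S k)
  rwa [zero_add] at this

theorem isHomogeneous_single (i j : I m) :
    ((Pi.single i 1 : I m → MvPolynomial (I m) S) j).IsHomogeneous 0 := by
  by_cases h : j = i
  · subst h
    simp only [Pi.single_eq_same]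
    exact isHomogeneous_one _ _
  · rw [Pi.single_eq_of_ne h]
    exact isHomogeneous_zero _ _ _

theorem isHomogeneous_NN (c : Ix m → S) (i j : I m) :
    (NN (rw' (fun e => (C (c e) : MvPolynomial (I m) S)) X) i j).IsHomogeneous m := by
  rw [NN_eq, Matrix.det_apply]
  refine IsHomogeneous.sum _ _ _ fun σ _ => ?_
  let d : Fin (m + 2) → ℕ := Fin.cons 0 (Fin.cons 0 fun _ => 1)
  have hd : ∀ a b : Fin (m + 2), (rows (Pi.single i 1) (Pi.single j 1)
      (rw' (fun e => (C (c e) : MvPolynomial (I m) S)) X) a b).IsHomogeneous (d a) := by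
    intro a b
    revert a
    refine cases3 ?_ ?_ fun r => ?_
    · exact isHomogeneous_single i b
    · exact isHomogeneous_single j b
    · exact isHomogeneous_rw' c r b
  have hs : ∑ a, d (σ a) = m := by
    rw [Equiv.sum_comp σ d, Fin.sum_univ_succ, Fin.sum_univ_succ]
    simp [d]
  have h2 : (∏ a, rows (Pi.single i 1) (Pi.single j 1)
      (rw' (fun e => (C (c e) : MvPolynomial (I m) S)) X) (σ a) a).IsHomogeneous m := by
    have h3 := IsHomogeneous.prod Finset.univ (fun a => rows (Pi.single i 1) (Pi.single j 1)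
      (rw' (fun e => (C (c e) : MvPolynomial (I m) S)) X) (σ a) a) (fun a => d (σ a))
      fun a _ => hd (σ a) a
    rw [hs] at h3
    exact h3
  rcases Int.units_eq_one_or (Equiv.Perm.sign σ) with h | h
  · rw [h, one_smul]
    exact h2
  · rw [h, Units.neg_smul, one_smul]
    exact h2.neg

theorem isHomogeneous_cG (c : Ix m → S) (p : I m × I m) :
    (cG c p).IsHomogeneous (2 * m + 2) := by
  rw [cG, gG_eq]
  exact isHomogeneous_gram _ _ (isHomogeneous_Mq c) (isHomogeneous_NN c) p.1 p.2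

end ring

section field

variable {m : ℕ} {k : Type u} [Field k]

theorem exists_factor {M N : Matrix (I m) (I m) k} (hM : ∀ i j, M i j = M j i) {x ξ : I m → k}
    (hx : IsLine N x) (hξ : IsLine N ξ) (h0 : bil M x x = 0)
    (hw : ∃ j l, x j * ξ l - x l * ξ j ≠ 0) :
    ∃ t : k, ∀ a b, gram M N a b = t * pr x (sp M ξ x) a b := by
  obtain ⟨j, l, hjl⟩ := hw
  refine ⟨N j l ^ 2 / (x j * ξ l - x l * ξ j) ^ 2, fun a b => ?_⟩
  have h := sp_gram hM hx hξ h0 j l a b
  have h2 : (x j * ξ l - x l * ξ j) ^ 2 ≠ 0 := pow_ne_zero 2 hjl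
  rw [div_mul_eq_mul_div, h, mul_div_cancel_left₀ _ h2]

/-- Over `y`: the forms `gG` are, up to a factor, the symmetric product of `x` and `nx c x y`. -/
theorem gG_nx (c : Ix m → k) {x y : I m → k} (h : OnX c x y)
    (hw : ∃ j l, x j * xh c y l - x l * xh c y j ≠ 0) :
    ∃ t : k, ∀ p, gG c y p = t * Pool.Agent.Helper47.NI.pr x (nx c x y) p := by
  have h0 : bil (Mq c y) x x = 0 := by
    rw [← qf_eq]
    exact h.2
  obtain ⟨t, ht⟩ := exists_factor (Mq_symm c y) (isLine_x c h.1) (isLine_x c (lf_xh c y)) h0 hw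
  refine ⟨t, fun p => ?_⟩
  rw [gG_eq, ht, nx_eq]
  rfl

/-- Over `x`: the same for `ny c x y`. -/
theorem gG_ny (c : Ix m → k) {x y : I m → k} (h : OnX c x y)
    (hw : ∃ j l, y j * Y1 c x l - y l * Y1 c x j ≠ 0) :
    ∃ t : k, ∀ p, gG (swc c) x p = t * Pool.Agent.Helper47.NI.pr y (ny c x y) p := by
  have h' := (onX_sw c x y).2 h
  have h0 : bil (Mq (swc c) x) y y = 0 := by
    rw [← qf_eq]
    exact h'.2
  have h1 : ∀ r, lf (swc c) r (Y1 c x) x = 0 := fun r => by rw [lf_sw, lf_Y1]
  obtain ⟨t, ht⟩ := exists_factor (Mq_symm (swc c) x) (isLine_x _ h'.1) (isLine_x _ h1) h0 hw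
  refine ⟨t, fun p => ?_⟩
  rw [gG_eq, ht, ny_eq]
  rfl

/-- The second point over `y`. -/
theorem exists_snd (c : Ix m → k) {x y : I m → k} (hx : x ≠ 0) (h : OnX c x y)
    (hG : ∃ p, gG c y p ≠ 0) :
    ∃ x', x' ≠ 0 ∧ OnX c x' y ∧ ∀ p, gG c y p = Pool.Agent.Helper47.NI.pr x x' p := by
  have h0 : bil (Mq c y) x x = 0 := by
    rw [← qf_eq]
    exact h.2
  obtain ⟨x', h1, h2, h3, h4⟩ := exists_other (Mq_symm c y) (isLine_x c h.1) hx h0 (by
    intro hg
    obtain ⟨p, hp⟩ := hG
    rw [gG_eq, hg] at hp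
    exact hp rfl)
  refine ⟨x', h1, ⟨fun r => ?_, ?_⟩, fun p => ?_⟩
  · rw [lf_eq]
    exact h4 (rw' c y r) (by rw [← lf_eq]; exact h.1 r) (fun j => dot_NN _ r j)
  · rw [qf_eq]
    exact h2
  · rw [gG_eq, h3]
    rfl

/-- A point over `y`. -/
theorem exists_fst [IsAlgClosed k] (c : Ix m → k) {y : I m → k} (hG : ∃ p, gG c y p ≠ 0) :
    ∃ x, x ≠ 0 ∧ OnX c x y := by
  obtain ⟨x, h1, h2, h3⟩ := exists_pt (Mq_symm c y) (NN_anti (rw' c y)) (NN_diag (rw' c y)) (by
    intro hN
    obtain ⟨p, hp⟩ := hG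
    rw [gG_eq, hN, gram_zero] at hp
    exact hp rfl)
  refine ⟨x, h1, fun r => ?_, ?_⟩
  · rw [lf_eq]
    exact h3 _ (fun j => dot_NN _ r j)
  · rw [qf_eq]
    exact h2

/-- The two double coverings. -/
noncomputable def dblX [IsAlgClosed k] (c : Ix m → k) :
    Pool.Agent.Helper47.NI.Dbl k (m + 2) (2 * m + 2) where
  G := cG c
  G' := cG (swc c)
  hG := isHomogeneous_cG c
  hG' := isHomogeneous_cG (swc c)
  S := {z | z.1 ≠ 0 ∧ z.2 ≠ 0 ∧ OnX c z.1 z.2}
  ne1 := fun h => h.1
  ne2 := fun h => h.2.1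
  sx := by
    rintro x y ⟨hx, hy, h⟩ hp
    simp only [eval_cG] at hp ⊢
    obtain ⟨x', h1, h2, h3⟩ := exists_snd c hx h hp
    exact ⟨x', ⟨h1, hy, h2⟩, h3⟩
  sy := by
    rintro x y ⟨hx, hy, h⟩ hp
    simp only [eval_cG] at hp ⊢
    obtain ⟨y', h1, h2, h3⟩ := exists_snd (swc c) hy ((onX_sw c x y).2 h) hp
    exact ⟨y', ⟨hx, h1, (onX_sw c x y').1 h2⟩, h3⟩
  ex := by
    rintro y hy hp
    simp only [eval_cG] at hp
    obtain ⟨x, h1, h2⟩ := exists_fst c hp
    exact ⟨x, h1, hy, h2⟩
  ex' := by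
    rintro x hx hp
    simp only [eval_cG] at hp
    obtain ⟨y, h1, h2⟩ := exists_fst (swc c) hp
    exact ⟨y, hx, h1, (onX_sw c x y).1 h2⟩

theorem dblX_G [IsAlgClosed k] (c : Ix m → k) : (dblX c).G = cG c := rfl

theorem dblX_G' [IsAlgClosed k] (c : Ix m → k) : (dblX c).G' = cG (swc c) := rfl

theorem mem_dblX [IsAlgClosed k] (c : Ix m → k) {x y : I m → k} :
    (x, y) ∈ (dblX c).S ↔ x ≠ 0 ∧ y ≠ 0 ∧ OnX c x y := Iff.rfl

end field

end Pool.Agent.Helper23.HNG
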