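import Pool.Agent.Helper23.HNG.Norm

set_option autoImplicit false
set_option linter.unusedVariables false
set_option linter.unusedSectionVars false

/-!
# The density hypothesis from two norms without common zero on one line
-/

namespace Pool.Agent.Helper23.HNG

open MvPolynomial Pool.Agent.Helper28.HN
open Pool.Agent.Helper76.CY (spec exists_delta exists_common_zero coeff_spec)

variable {m : ℕ}

/-- The points of the line `y_2 = .. = 0`. -/
def line {k : Type*} [Zero k] (z : Fin 2 → k) : I m → k :=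
  Fin.cons (z 0) (Fin.cons (z 1) fun _ => 0)

/-- The coordinates of the line as polynomials. -/
noncomputable def lineP (R : Type*) [CommRing R] : I m → MvPolynomial (Fin 2) R := line X

theorem isHomogeneous_lineP (R : Type*) [CommRing R] (i : I m) :
    (lineP R i).IsHomogeneous 1 := by
  revert i
  refine cases3 ?_ ?_ fun r => ?_
  · exact isHomogeneous_X R 0
  · exact isHomogeneous_X R 1
  · exact isHomogeneous_zero _ _ _

theorem eval_lineP {R : Type*} [CommRing R] (z : Fin 2 → R) (i : I m) :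
    eval z (lineP R i) = line z i := by
  revert i
  refine cases3 ?_ ?_ fun r => ?_
  · exact eval_X 0
  · exact eval_X 1
  · exact map_zero _

/-- The restriction of a form to the line. -/
noncomputable def res {R : Type*} [CommRing R] (F : MvPolynomial (I m) R) :
    MvPolynomial (Fin 2) R := aeval (lineP R) F

theorem isHomogeneous_res {R : Type*} [CommRing R] {F : MvPolynomial (I m) R} {d : ℕ}
    (hF : F.IsHomogeneous d) : (res F).IsHomogeneous d := by
  have h := hF.aeval (lineP R) (isHomogeneous_lineP R)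
  rwa [one_mul] at h

theorem eval_res {R : Type*} [CommRing R] (F : MvPolynomial (I m) R) (z : Fin 2 → R) :
    eval z (res F) = eval (line z) F := by
  rw [res, aeval_def, MvPolynomial.hom_eval₂, eval₂_eq_eval_map]
  have h1 : (eval z).comp (algebraMap R (MvPolynomial (Fin 2) R)) = RingHom.id R := by
    ext r
    simp
  have h2 : (fun i : I m => eval z (lineP R i)) = line z := funext (eval_lineP z)
  rw [h1, map_id, h2]

theorem spec_res {k : Type*} [Field k] [Algebra ℚ k] (c : Ix m → k)
    (F : MvPolynomial (I m) (MvPolynomial (Ix m) ℚ)) :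
    spec (Fin 2) c (res F) = res (spec (I m) c F) := by
  have h : (spec (Fin 2) c).comp (aeval (lineP (MvPolynomial (Ix m) ℚ)) :
      MvPolynomial (I m) (MvPolynomial (Ix m) ℚ) →ₐ[MvPolynomial (Ix m) ℚ] _).toRingHom =
      ((aeval (lineP k) : MvPolynomial (I m) k →ₐ[k] _).toRingHom).comp (spec (I m) c) := by
    apply MvPolynomial.ringHom_ext
    · intro r
      simp only [RingHom.comp_apply, AlgHom.toRingHom_eq_coe, RingHom.coe_coe, spec,
        MvPolynomial.aeval_C, MvPolynomial.map_C, MvPolynomial.algebraMap_eq]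
    · intro i
      simp only [RingHom.comp_apply, AlgHom.toRingHom_eq_coe, RingHom.coe_coe, aeval_X, spec,
        map_X]
      revert i
      refine cases3 ?_ ?_ fun r => ?_
      · exact map_X _ 0
      · exact map_X _ 1
      · exact map_zero _
  exact DFunLike.congr_fun h F

theorem exists_zero_line {k : Type*} [Field k] [IsAlgClosed k] {F : MvPolynomial (I m) k} {d : ℕ}
    (hF : F.IsHomogeneous d) (hd : d ≠ 0) : ∃ z : Fin 2 → k, z ≠ 0 ∧ eval (line z) F = 0 := by
  obtain ⟨z, hz, h⟩ := exists_common_zero (K := k) (k := 1) (fun _ => res F)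
    (fun _ => eval_zero (isHomogeneous_res hF) hd) (by simp)
  exact ⟨z, hz, by rw [← eval_res]; exact h 0⟩

theorem dense_core {k : Type*} [Field k] [IsAlgClosed k] (c : Ix m → k)
    {F1 F2 : MvPolynomial (I m) k} {d : ℕ} (hd : d ≠ 0) (h1 : F1.IsHomogeneous d)
    (h2 : F2.IsHomogeneous d)
    (hb1 : ∀ y, (∀ p, gG c y p = 0) → eval y F1 = 0)
    (hb2 : ∀ y, (∀ p, gG c y p = 0) → eval y F2 = 0)
    (hn1 : ∀ x x' y, (∀ p, gG c y p = Pool.Agent.Helper47.NI.pr x x' p) →
      (∀ p, gG (swc c) x p = 0) → eval y F1 = 0)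
    (hn2 : ∀ x x' y, (∀ p, gG c y p = Pool.Agent.Helper47.NI.pr x x' p) →
      (∀ p, gG (swc c) x p = 0) → eval y F2 = 0)
    (hl : ∀ z : Fin 2 → k, z ≠ 0 → ¬ (eval (line z) F1 = 0 ∧ eval (line z) F2 = 0)) :
    (dblX c).Dense := by
  have hne : F1 ≠ 0 ∨ F2 ≠ 0 := by
    by_contra hcon
    push Not at hcon
    refine hl (Pi.single 0 1) (by simp) ?_
    rw [hcon.1, hcon.2]
    simp
  have hrel : IsRelPrime F1 F2 := by
    intro w hw1 hw2
    have hhom : ∃ a, w.IsHomogeneous a := by
      rcases hne with h | h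
      · obtain ⟨v, hv⟩ := hw1
        rw [hv] at h h1
        obtain ⟨a, b, ha, -, -⟩ := Pool.Agent.Helper47.NI.hom_factor h1 h
        exact ⟨a, ha⟩
      · obtain ⟨v, hv⟩ := hw2
        rw [hv] at h h2
        obtain ⟨a, b, ha, -, -⟩ := Pool.Agent.Helper47.NI.hom_factor h2 h
        exact ⟨a, ha⟩
    have hw0 : w ≠ 0 := by
      rintro rfl
      rcases hne with h | h
      · exact h (zero_dvd_iff.1 hw1)
      · exact h (zero_dvd_iff.1 hw2)
    obtain ⟨a, ha⟩ := hhom
    by_cases ha0 : a = 0
    · subst ha0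
      have h3 : w.totalDegree = 0 := by
        have := ha.totalDegree hw0
        exact this
      rw [totalDegree_eq_zero_iff_eq_C] at h3
      rw [h3]
      refine (isUnit_iff_ne_zero.2 ?_).map C
      intro h4
      rw [h4, map_zero] at h3
      exact hw0 h3
    · exfalso
      obtain ⟨z, hz, h3⟩ := exists_zero_line ha ha0
      refine hl z hz ⟨?_, ?_⟩
      · obtain ⟨v, rfl⟩ := hw1
        rw [map_mul, h3, zero_mul]
      · obtain ⟨v, rfl⟩ := hw2
        rw [map_mul, h3, zero_mul]
  refine Pool.Agent.Helper47.NI.Dbl.dense_of_coprime (dblX c) F1 F2 hrel ?_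
  rintro y (rfl | hy)
  · exact ⟨eval_zero h1 hd, eval_zero h2 hd⟩
  · unfold Pool.Agent.Helper47.NI.Dbl.Good at hy
    rw [not_and_or] at hy
    rcases hy with hy | hy
    · push Not at hy
      have h3 : ∀ p, gG c y p = 0 := fun p => by
        have := hy p
        rwa [dblX_G, eval_cG] at this
      exact ⟨hb1 y h3, hb2 y h3⟩
    · push Not at hy
      obtain ⟨x, hx, hx2⟩ := hy
      have h4 : ∀ p, gG (swc c) x p = 0 := fun p => by
        have := hx2 p
        rwa [dblX_G', eval_cG] at this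
      by_cases h3 : ∀ p, gG c y p = 0
      · exact ⟨hb1 y h3, hb2 y h3⟩
      · push Not at h3
        obtain ⟨x', -, -, h5⟩ := exists_snd c hx.1 hx.2.2 h3
        exact ⟨hn1 x x' y h5 h4, hn2 x x' y h5 h4⟩

/-- `F` is the norm of `uu a b` with generic coefficients. -/
def IsNrm (m : ℕ) (a b : ℚ) (F : MvPolynomial (I m) (MvPolynomial (Ix m) ℚ)) : Prop :=
  F.IsHomogeneous ((2 * m + 2) * (2 * m + 2)) ∧
    ∀ (k : Type) [Field k] [Algebra ℚ k] (c : Ix m → k) (y : I m → k),
      ((∀ p, gG c y p = 0) → eval y (spec (I m) c F) = 0) ∧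
      ∀ x x' : I m → k, (∀ p, gG c y p = Pool.Agent.Helper47.NI.pr x x' p) →
        eval y (spec (I m) c F) = 2 * (uu a b c x * uu a b c x')

theorem dense_of_line (m : ℕ) (c0 : Ix m → ℚ) {a1 b1 a2 b2 : ℚ}
    {F1 F2 : MvPolynomial (I m) (MvPolynomial (Ix m) ℚ)} (h1 : IsNrm m a1 b1 F1)
    (h2 : IsNrm m a2 b2 F2)
    (hl : ∀ z : Fin 2 → AlgebraicClosure ℚ, z ≠ 0 →
      ¬ (eval (line z) (spec (I m) (fun e => algebraMap ℚ (AlgebraicClosure ℚ) (c0 e)) F1) = 0 ∧
        eval (line z) (spec (I m) (fun e => algebraMap ℚ (AlgebraicClosure ℚ) (c0 e)) F2) = 0)) :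
    ∃ Δ : MvPolynomial (Ix m) ℚ, Δ ≠ 0 ∧ ∀ (k : Type) [Field k] [IsAlgClosed k] [Algebra ℚ k]
      (c : Ix m → k), aeval c Δ ≠ 0 → (dblX c).Dense := by
  let F : Fin 2 → MvPolynomial (Fin 2) (MvPolynomial (Ix m) ℚ) := ![res F1, res F2]
  obtain ⟨Δ, hΔ, h⟩ := exists_delta (Ω := AlgebraicClosure ℚ) F
    (fun _ => (2 * m + 2) * (2 * m + 2)) (by
      intro i
      fin_cases i
      · exact isHomogeneous_res h1.1
      · exact isHomogeneous_res h2.1) c0 (by
      intro z hz
      by_contra hz0
      have e : ∀ G : MvPolynomial (I m) (MvPolynomial (Ix m) ℚ),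
          aeval z (spec (Fin 2) c0 (res G)) = eval (line z)
            (spec (I m) (fun e => algebraMap ℚ (AlgebraicClosure ℚ) (c0 e)) G) := by
        intro G
        rw [← eval_res, ← spec_res]
        have e2 : spec (Fin 2) (fun e => algebraMap ℚ (AlgebraicClosure ℚ) (c0 e)) (res G) =
            MvPolynomial.map (algebraMap ℚ (AlgebraicClosure ℚ)) (spec (Fin 2) c0 (res G)) := by
          have e3 : (aeval (fun e => algebraMap ℚ (AlgebraicClosure ℚ) (c0 e)) :
              MvPolynomial (Ix m) ℚ →ₐ[ℚ] AlgebraicClosure ℚ).toRingHom =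
              (algebraMap ℚ (AlgebraicClosure ℚ)).comp
                (aeval c0 : MvPolynomial (Ix m) ℚ →ₐ[ℚ] ℚ).toRingHom := by
            apply MvPolynomial.ringHom_ext
            · intro r
              simp
            · intro i
              simp
          rw [spec, spec, map_map, e3]
        rw [e2, eval_map, aeval_def]
      refine hl z hz0 ⟨?_, ?_⟩
      · rw [← e]
        exact hz 0
      · rw [← e]
        exact hz 1)
  refine ⟨Δ, fun h0 => hΔ (by rw [h0, map_zero]), fun k _ _ _ c hc => ?_⟩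
  have h3 := h k c hc
  refine dense_core c (F1 := spec (I m) c F1) (F2 := spec (I m) c F2)
    (d := (2 * m + 2) * (2 * m + 2)) (by positivity) (h1.1.map _) (h2.1.map _)
    (fun y hy => (h1.2 k c y).1 hy) (fun y hy => (h2.2 k c y).1 hy)
    (fun x x' y hy hx => ?_) (fun x x' y hy hx => ?_) (fun z hz hcon => hz (h3 z ?_))
  · rw [(h1.2 k c y).2 x x' hy]
    simp [uu, hx]
  · rw [(h2.2 k c y).2 x x' hy]
    simp [uu, hx]
  · intro i
    fin_cases i
    · change eval z (spec (Fin 2) c (res F1)) = 0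
      rw [spec_res, eval_res]
      exact hcon.1
    · change eval z (spec (Fin 2) c (res F2)) = 0
      rw [spec_res, eval_res]
      exact hcon.2

/-- The density hypothesis for the exchanged family. -/
theorem dense_swap {k : Type*} [Field k] [IsAlgClosed k] (c : Ix m → k)
    (h : (dblX (swc c)).Dense) : (dblX c).swap.Dense := by
  intro w hw F hF
  refine h w hw F fun y hy hg hyw => hF y hy ?_ hyw
  obtain ⟨h1, h2⟩ := hg
  refine ⟨h1, fun x hx => ?_⟩
  have h3 : (x, y) ∈ (dblX (swc c)).S := ⟨hx.2.1, hx.1, (onX_sw c y x).2 hx.2.2⟩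
  obtain ⟨p, hp⟩ := h2 x h3
  refine ⟨p, ?_⟩
  rw [dblX_G', swc_swc] at hp
  exact hp

end Pool.Agent.Helper23.HNG
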