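import Pool.Agent.Helper28.HN.Defs

set_option autoImplicit false
set_option linter.unusedVariables false
set_option linter.unusedSectionVars false

/-!
# The functions of `Helper28/HN/Defs` commute with ring homomorphisms, and their homogeneity
-/

namespace Pool.Agent.Helper23.HNG

open MvPolynomial Pool.Agent.Helper28.HN

section map

variable {m : ℕ} {S T : Type*} [CommRing S] [CommRing T] (f : S →+* T)

theorem map_single (i : I m) : (fun j => f ((Pi.single i 1 : I m → S) j)) = Pi.single i 1 := by
  funext j
  by_cases h : j = i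
  · subst h
    simp
  · simp [Pi.single_eq_of_ne h]

theorem map_lf (c : Ix m → S) (r : Fin m) (x y : I m → S) :
    f (lf c r x y) = lf (fun e => f (c e)) r (fun i => f (x i)) (fun i => f (y i)) := by
  simp only [lf, map_sum, map_mul]

theorem map_pq (c : Ix m → S) (i j k l : I m) :
    f (pq c i j k l) = pq (fun e => f (c e)) i j k l := by
  simp only [pq, map_add]

theorem map_qf (c : Ix m → S) (x x' y y' : I m → S) :
    f (qf c x x' y y') = qf (fun e => f (c e)) (fun i => f (x i)) (fun i => f (x' i))
      (fun i => f (y i)) (fun i => f (y' i)) := by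
  simp only [qf, map_sum, map_mul, map_pq]

theorem map_rw' (c : Ix m → S) (y : I m → S) (r : Fin m) (i : I m) :
    f (rw' c y r i) = rw' (fun e => f (c e)) (fun i => f (y i)) r i := by
  simp only [rw', map_sum, map_mul]

theorem map_cr (A : Fin m → I m → S) (ζ : I m → S) (i : I m) :
    f (cr A ζ i) = cr (fun r i => f (A r i)) (fun i => f (ζ i)) i := by
  rw [cr, cr, f.map_det]
  congr 1
  ext a b
  refine Fin.cases ?_ (fun a => Fin.cases ?_ (fun a => ?_) a) a
  · exact congrFun (map_single f i) b
  · rfl
  · rfl

theorem map_gG (c : Ix m → S) (y : I m → S) (p : I m × I m) :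
    f (gG c y p) = gG (fun e => f (c e)) (fun i => f (y i)) p := by
  rw [gG, gG, map_mul, map_ofNat, map_qf]
  simp only [map_cr, map_rw', map_single]

theorem map_Mx (c : Ix m → S) (x : I m → S) :
    (Mx c x).map f = Mx (fun e => f (c e)) (fun i => f (x i)) := by
  ext r b
  simp only [Mx, Matrix.map_apply, map_lf, map_single]

theorem map_Nx (c : Ix m → S) (y : I m → S) :
    (Nx c y).map f = Nx (fun e => f (c e)) (fun i => f (y i)) := by
  ext r b
  simp only [Nx, Matrix.map_apply, map_lf, map_single]

theorem map_det (M : Matrix (Fin m) (Fin m) S) : f M.det = (M.map f).det := by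
  rw [f.map_det]
  rfl

theorem map_adj (M : Matrix (Fin m) (Fin m) S) (b : Fin m → S) (i : Fin m) :
    f (M.adjugate.mulVec b i) = (M.map f).adjugate.mulVec (fun j => f (b j)) i := by
  have h := RingHom.map_adjugate f M
  have h2 : (M.map f).adjugate = M.adjugate.map f := h.symm
  rw [h2]
  simp only [Matrix.mulVec, dotProduct, map_sum, map_mul, Matrix.map_apply]

theorem map_Y0 (c : Ix m → S) (x : I m → S) (i : I m) :
    f (Y0 c x i) = Y0 (fun e => f (c e)) (fun i => f (x i)) i := by
  unfold Y0
  refine Fin.cases ?_ (fun i => Fin.cases ?_ (fun i => ?_) i) i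
  · simp only [Fin.cons_zero]
    rw [map_det, map_Mx]
  · simp only [Fin.cons_zero, Fin.cons_succ, map_zero]
  · simp only [Fin.cons_succ, Pi.neg_apply, map_neg]
    rw [map_adj, map_Mx]
    simp only [map_lf, map_single]

theorem map_Y1 (c : Ix m → S) (x : I m → S) (i : I m) :
    f (Y1 c x i) = Y1 (fun e => f (c e)) (fun i => f (x i)) i := by
  unfold Y1
  refine Fin.cases ?_ (fun i => Fin.cases ?_ (fun i => ?_) i) i
  · simp only [Fin.cons_zero, map_zero]
  · simp only [Fin.cons_zero, Fin.cons_succ]
    rw [map_det, map_Mx]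
  · simp only [Fin.cons_succ, Pi.neg_apply, map_neg]
    rw [map_adj, map_Mx]
    simp only [map_lf, map_single]

theorem map_yh (c : Ix m → S) (x : I m → S) (z : S) (i : I m) :
    f (yh c x z i) = yh (fun e => f (c e)) (fun i => f (x i)) (f z) i := by
  simp only [yh, map_add, map_mul, map_Y0, map_Y1]

theorem map_vh (c : Ix m → S) (y : I m → S) (i : Fin (m + 1)) :
    f (vh c y i) = vh (fun e => f (c e)) (fun i => f (y i)) i := by
  unfold vh
  refine Fin.lastCases ?_ (fun i => ?_) i
  · simp only [Fin.snoc_last]
    rw [map_det, map_Nx]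
  · simp only [Fin.snoc_castSucc, Pi.neg_apply, map_neg]
    rw [map_adj, map_Nx]
    simp only [map_lf, map_single]

theorem map_xh (c : Ix m → S) (y : I m → S) (i : I m) :
    f (xh c y i) = xh (fun e => f (c e)) (fun i => f (y i)) i := by
  unfold xh
  refine Fin.cases ?_ (fun i => ?_) i
  · simp only [Fin.cons_zero, map_zero]
  · simp only [Fin.cons_succ, map_vh]

theorem map_nx (c : Ix m → S) (x y : I m → S) (i : I m) :
    f (nx c x y i) = nx (fun e => f (c e)) (fun i => f (x i)) (fun i => f (y i)) i := by
  simp only [nx, map_sub, map_mul, map_ofNat, map_qf, map_xh]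

theorem map_Ah (c : Ix m → S) (x : I m → S) :
    f (Ah c x) = Ah (fun e => f (c e)) (fun i => f (x i)) := by
  simp only [Ah, map_qf, map_Y1]

theorem map_Bh (c : Ix m → S) (x : I m → S) :
    f (Bh c x) = Bh (fun e => f (c e)) (fun i => f (x i)) := by
  simp only [Bh, map_qf, map_Y1, map_Y0]

theorem map_Ch (c : Ix m → S) (x : I m → S) :
    f (Ch c x) = Ch (fun e => f (c e)) (fun i => f (x i)) := by
  simp only [Ch, map_qf, map_Y0]

theorem map_ny (c : Ix m → S) (x y : I m → S) (i : I m) :
    f (ny c x y i) = ny (fun e => f (c e)) (fun i => f (x i)) (fun i => f (y i)) i := by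
  simp only [ny, map_sub, map_mul, map_ofNat, map_qf, map_Y1, map_Ah]

theorem map_Fh (c : Ix m → S) (x : I m → S) (z : S) :
    f (Fh c x z) = Fh (fun e => f (c e)) (fun i => f (x i)) (f z) := by
  simp only [Fh, map_qf, map_yh]

theorem map_psh (c : Ix m → S) (x : I m → S) (z : S) :
    f (psh c x z) = psh (fun e => f (c e)) (fun i => f (x i)) (f z) := by
  simp only [psh, map_qf, map_yh, map_xh]

theorem map_kah (c : Ix m → S) (x : I m → S) (z : S) :
    f (kah c x z) = kah (fun e => f (c e)) (fun i => f (x i)) (f z) := by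
  simp only [kah, map_qf, map_yh, map_xh]

theorem map_qh (c : Ix m → S) (x ξ : I m → S) (z : S) :
    f (qh c x ξ z) = qh (fun e => f (c e)) (fun i => f (x i)) (fun i => f (ξ i)) (f z) := by
  have h : (fun i => f ((Fin.cons 0 (Fin.cons 0
      (- ((Mx c x).adjugate.mulVec fun r => lf c r ξ (yh c x z)))) : I m → S) i)) =
      (Fin.cons 0 (Fin.cons 0
      (- ((Mx (fun e => f (c e)) (fun i => f (x i))).adjugate.mulVec fun r =>
        lf (fun e => f (c e)) r (fun i => f (ξ i))
          (yh (fun e => f (c e)) (fun i => f (x i)) (f z)))))) := by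
    funext i
    refine Fin.cases ?_ (fun i => Fin.cases ?_ (fun i => ?_) i) i
    · simp only [Fin.cons_zero, map_zero]
    · simp only [Fin.cons_zero, Fin.cons_succ, map_zero]
    · simp only [Fin.cons_succ, Pi.neg_apply, map_neg]
      rw [map_adj, map_Mx]
      simp only [map_lf, map_yh]
  unfold qh
  rw [map_mul, map_add, map_mul, map_ofNat, map_det, map_Mx, map_qf, map_qf, h]
  simp only [map_yh]

theorem map_aff (u : Fin (m + 1) → S) (i : I m) : f (aff u i) = aff (fun j => f (u j)) i := by
  unfold aff
  refine Fin.cases ?_ (fun i => ?_) i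
  · simp only [Fin.cons_zero, map_one]
  · simp only [Fin.cons_succ]

theorem map_xz (c : Ix m → S) (u : Fin (m + 1) → S) (z : S) (i : I m) :
    f (xz c u z i) = xz (fun e => f (c e)) (fun i => f (u i)) (f z) i := by
  simp only [xz, map_xh, map_yh, map_aff]

end map

end Pool.Agent.Helper23.HNG
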