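import Pool.Agent.Helper23.HNG.Smx

set_option autoImplicit false
set_option linter.unusedVariables false
set_option linter.unusedSectionVars false

/-!
# The density hypothesis for general coefficients, all `m`
-/

namespace Pool.Agent.Helper23.HNG

open MvPolynomial Pool.Agent.Helper28.HN
open Pool.Agent.Helper76.CY (spec)

variable {m : ℕ}

theorem hom_spec {k : Type*} [Field k] [Algebra ℚ k] (c : Ix m → k) {d : ℕ}
    {F : MvPolynomial (I m) (MvPolynomial (Ix m) ℚ)} (hF : F.IsHomogeneous d) :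
    (spec (I m) c F).IsHomogeneous d := hF.map _

theorem uu_smul {k : Type*} [Field k] [Algebra ℚ k] (a b : ℚ) (c : Ix m → k) (r : k)
    (x : I m → k) : uu a b c (r • x) = r ^ (2 * m + 2) * uu a b c x := by
  rw [← eval_uF, ← eval_uF,
    Pool.Agent.Helper63.NPD.eval_smul' (hom_spec c (isHomogeneous_uF a b))]

theorem line_smul {k : Type*} [Field k] {z : Fin 2 → k} (hz : z 0 ≠ 0) :
    (line z : I m → k) = z 0 • line ![1, z 1 / z 0] := by
  funext i
  revert i
  refine cases3 ?_ ?_ fun r => ?_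
  · rw [Pi.smul_apply, line_zero, line_zero]
    simp
  · rw [Pi.smul_apply, line_one, line_one]
    have h : (![1, z 1 / z 0] : Fin 2 → k) 1 = z 1 / z 0 := rfl
    rw [h, smul_eq_mul, mul_div_cancel₀ _ hz]
  · rw [Pi.smul_apply, line_ge _ (by simp), line_ge _ (by simp), smul_zero]

/-- The norm on the line `z 0 = 1` has finitely many zeros. -/
theorem finite_zeros {k : Type*} [Field k] (F : MvPolynomial (I m) k) (τ0 : k)
    (h : eval (line ![1, τ0]) F ≠ 0) : {τ : k | eval (line ![1, τ]) F = 0}.Finite := by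
  classical
  let P : Polynomial k := aeval (![1, Polynomial.X] : Fin 2 → Polynomial k) (res F)
  have hP : ∀ τ, P.eval τ = eval (line ![1, τ]) F := by
    intro τ
    rw [← eval_res]
    have h1 : P.eval τ = (Polynomial.evalRingHom τ)
        (eval₂ (algebraMap k (Polynomial k)) ![1, Polynomial.X] (res F)) := by
      rw [← aeval_def]
      rfl
    rw [h1, MvPolynomial.hom_eval₂]
    have h2 : (Polynomial.evalRingHom τ).comp (algebraMap k (Polynomial k)) = RingHom.id k := by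
      ext r
      simp
    have h3 : (fun i => (Polynomial.evalRingHom τ) ((![1, Polynomial.X] :
        Fin 2 → Polynomial k) i)) = ![1, τ] := by
      funext i
      fin_cases i
      · simp
      · simp
    rw [h2, h3]
    rfl
  have hP0 : P ≠ 0 := by
    intro h0
    apply h
    rw [← hP, h0, Polynomial.eval_zero]
  refine Set.Finite.subset (P.roots.toFinset.finite_toSet) fun τ hτ => ?_
  rw [Finset.mem_coe, Multiset.mem_toFinset, Polynomial.mem_roots hP0, Polynomial.IsRoot, hP]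
  exact hτ

/-- Choice of the second combination. -/
theorem exists_mu {k ι : Type*} [Field k] [Algebra ℚ k] [CharZero k] (T : Set ι) (hT : T.Finite)
    (A B : ι → k) (h : ∀ i ∈ T, ¬ (A i = 0 ∧ B i = 0)) :
    ∃ μ : ℚ, ∀ i ∈ T, A i + algebraMap ℚ k μ * B i ≠ 0 := by
  classical
  have hfin : (⋃ i ∈ T, {μ : ℚ | A i + algebraMap ℚ k μ * B i = 0}).Finite := by
    refine hT.biUnion fun i hi => Set.Subsingleton.finite ?_
    intro μ hμ ν hν
    have h1 : A i + algebraMap ℚ k μ * B i = 0 := hμ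
    have h2 : A i + algebraMap ℚ k ν * B i = 0 := hν
    by_contra hne
    have h3 : (algebraMap ℚ k μ - algebraMap ℚ k ν) * B i = 0 := by
      linear_combination h1 - h2
    rcases mul_eq_zero.1 h3 with h4 | h4
    · exact hne ((algebraMap ℚ k).injective (sub_eq_zero.1 h4))
    · rw [h4, mul_zero, add_zero] at h1
      exact h i hi ⟨h1, h4⟩
  obtain ⟨μ, hμ⟩ := hfin.exists_notMem
  refine ⟨μ, fun i hi h0 => hμ ?_⟩
  exact Set.mem_biUnion hi h0

theorem dense_one (hm : 1 ≤ m) : ∃ Δ : MvPolynomial (Ix m) ℚ, Δ ≠ 0 ∧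
    ∀ (k : Type) [Field k] [IsAlgClosed k] [Algebra ℚ k] (c : Ix m → k), aeval c Δ ≠ 0 →
      (dblX c).Dense := by
  obtain ⟨F1, hF1⟩ := exists_nrm m 1 0
  have hc : (fun e => algebraMap ℚ (AlgebraicClosure ℚ) (sm m ℚ e)) =
      sm m (AlgebraicClosure ℚ) := funext fun e => map_sm (algebraMap ℚ (AlgebraicClosure ℚ)) e
  have h2 : (2 : AlgebraicClosure ℚ) ≠ 0 := two_ne_zero
  -- points over the line
  have hpt : ∀ z : Fin 2 → AlgebraicClosure ℚ, z ≠ 0 → ∃ x x' : I m → AlgebraicClosure ℚ,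
      x ≠ 0 ∧ x' ≠ 0 ∧ OnX (sm m (AlgebraicClosure ℚ)) x (line z) ∧
      OnX (sm m (AlgebraicClosure ℚ)) x' (line z) ∧
      ∀ p, gG (sm m (AlgebraicClosure ℚ)) (line z) p = Pool.Agent.Helper47.NI.pr x x' p := by
    intro z hz
    have hG := gG_line (m := m) hm hz
    obtain ⟨x, hx, h⟩ := exists_fst _ hG
    obtain ⟨x', hx', h', hp⟩ := exists_snd _ hx h hG
    exact ⟨x, x', hx, hx', h, h', hp⟩
  have hfin : {τ : AlgebraicClosure ℚ | eval (line ![1, τ])
      (spec (I m) (sm m (AlgebraicClosure ℚ)) F1) = 0}.Finite := by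
    apply finite_zeros _ 0
    have hz : (![1, 0] : Fin 2 → AlgebraicClosure ℚ) ≠ 0 := by
      intro h
      have := congrFun h 0
      simp at this
    obtain ⟨x, x', hx, hx', h, h', hp⟩ := hpt _ hz
    rw [(hF1.2 (AlgebraicClosure ℚ) (sm m (AlgebraicClosure ℚ)) _).2 x x' hp]
    have h0 : (![1, 0] : Fin 2 → AlgebraicClosure ℚ) 0 ≠ 0 := by simp
    have hτ : (![1, 0] : Fin 2 → AlgebraicClosure ℚ) 1 /
      (![1, 0] : Fin 2 → AlgebraicClosure ℚ) 0 = 0 := by simp
    obtain ⟨a, ha, ε, hε, rfl⟩ := pts_line hm hx h0 h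
    obtain ⟨a', ha', ε', hε', rfl⟩ := pts_line hm hx' h0 h'
    rw [hτ, uu_smul, uu_smul]
    exact mul_ne_zero h2 (mul_ne_zero (mul_ne_zero (pow_ne_zero _ ha) (uu_Xp0 hm ε))
      (mul_ne_zero (pow_ne_zero _ ha') (uu_Xp0 hm ε')))
  obtain ⟨μ, hμ⟩ := exists_mu (k := AlgebraicClosure ℚ)
    ({τ : AlgebraicClosure ℚ | eval (line ![1, τ])
      (spec (I m) (sm m (AlgebraicClosure ℚ)) F1) = 0} ×ˢ ({1, -1} : Set (AlgebraicClosure ℚ)))
    (hfin.prod (Set.toFinite _))
    (fun i => gG (swc (sm m (AlgebraicClosure ℚ))) (Xp m i.2 i.1) (0, 0))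
    (fun i => gG (swc (sm m (AlgebraicClosure ℚ))) (Xp m i.2 i.1) (0, 1)) (by
      rintro ⟨τ, ε⟩ ⟨-, hε⟩
      refine H_ne hm ?_ τ
      rcases hε with hε | hε
      · simp only at hε
        rw [hε]
        exact one_ne_zero
      · have hε2 : ε = -1 := hε
        simp only [hε2]
        exact neg_ne_zero.2 one_ne_zero)
  obtain ⟨F2, hF2⟩ := exists_nrm m 0 μ
  refine dense_of_line m (sm m ℚ) hF1 hF2 ?_
  rw [hc]
  rintro z hz ⟨h3, h4⟩
  obtain ⟨x, x', hx, hx', h, h', hp⟩ := hpt z hz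
  have e1 := h3
  rw [(hF1.2 (AlgebraicClosure ℚ) (sm m (AlgebraicClosure ℚ)) _).2 x x' hp] at e1
  rw [(hF2.2 (AlgebraicClosure ℚ) (sm m (AlgebraicClosure ℚ)) _).2 x x' hp] at h4
  by_cases h0 : z 0 = 0
  · obtain ⟨a, ha, rfl⟩ := pts_line' hm hx hz h0 h
    obtain ⟨a', ha', rfl⟩ := pts_line' hm hx' hz h0 h'
    rw [uu_smul, uu_smul] at e1
    exact mul_ne_zero h2 (mul_ne_zero (mul_ne_zero (pow_ne_zero _ ha) (uu_el hm))
      (mul_ne_zero (pow_ne_zero _ ha') (uu_el hm))) e1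
  · have h5 : eval (line ![1, z 1 / z 0]) (spec (I m) (sm m (AlgebraicClosure ℚ)) F1) = 0 := by
      rw [line_smul h0, Pool.Agent.Helper63.NPD.eval_smul' (hom_spec _ hF1.1)] at h3
      exact (mul_eq_zero.1 h3).resolve_left (pow_ne_zero _ h0)
    have key : ∀ ε : AlgebraicClosure ℚ, (ε = 1 ∨ ε = -1) →
        uu 0 μ (sm m (AlgebraicClosure ℚ)) (Xp m ε (z 1 / z 0)) ≠ 0 := by
      intro ε hε
      have h6 := hμ (z 1 / z 0, ε) ⟨h5, hε⟩
      rw [uu, map_zero, zero_mul, add_zero]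
      exact h6
    obtain ⟨a, ha, ε, hε, rfl⟩ := pts_line hm hx h0 h
    obtain ⟨a', ha', ε', hε', rfl⟩ := pts_line hm hx' h0 h'
    rw [uu_smul, uu_smul] at h4
    exact mul_ne_zero h2 (mul_ne_zero (mul_ne_zero (pow_ne_zero _ ha) (key ε hε))
      (mul_ne_zero (pow_ne_zero _ ha') (key ε' hε'))) h4

/-- The density hypotheses of both sides, for general coefficients. -/
theorem dense_both (hm : 1 ≤ m) : ∃ Δ : MvPolynomial (Ix m) ℚ, Δ ≠ 0 ∧
    ∀ (k : Type) [Field k] [IsAlgClosed k] [Algebra ℚ k] (c : Ix m → k), aeval c Δ ≠ 0 →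
      (dblX c).Dense ∧ (dblX c).swap.Dense := by
  obtain ⟨Δ, hΔ, h⟩ := dense_one hm
  have hinj : Function.Injective (sw : Ix m → Ix m) := fun a b hab => by
    rw [← sw_sw a, ← sw_sw b, hab]
  refine ⟨Δ * rename sw Δ, mul_ne_zero hΔ ?_, fun k _ _ _ c hc => ?_⟩
  · exact (rename_injective sw hinj).ne_iff' (map_zero _) |>.2 hΔ
  · rw [map_mul, aeval_rename] at hc
    exact ⟨h k c (left_ne_zero_of_mul hc), dense_swap c (h k (swc c) (right_ne_zero_of_mul hc))⟩

end Pool.Agent.Helper23.HNG
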