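import Pool.Agent.Helper23.HNG.Dbl
import Pool.Agent.Helper76.CY.Delta
import Pool.Agent.Helper76.CY.CommonZero
import Pool.Agent.Helper63.NPD.Dense

set_option autoImplicit false
set_option linter.unusedVariables false
set_option linter.unusedSectionVars false

/-!
# Norms of the forms over `x`, and the density hypothesis from one line

`uu a b c x = H_00 + a H_11 + b H_01`, a combination of the forms `cG (swc c)` at `x`. Its norm is a
form in `y` with coefficients in `ℚ[c]`. If for one `c0` two norms have no common zero on the line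
`y_2 = .. = 0`, then for general `c` they are coprime and the bad points are common zeros.
-/

namespace Pool.Agent.Helper23.HNG

open MvPolynomial Pool.Agent.Helper28.HN
open Pool.Agent.Helper76.CY (spec exists_delta exists_common_zero coeff_spec)

variable {m : ℕ}

/-- A combination of the forms over `x`. -/
noncomputable def uu {k : Type*} [CommRing k] [Algebra ℚ k] (a b : ℚ) (c : Ix m → k)
    (x : I m → k) : k :=
  gG (swc c) x (0, 0) + algebraMap ℚ k a * gG (swc c) x (1, 1) +
    algebraMap ℚ k b * gG (swc c) x (0, 1)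

/-- The generic coefficients. -/
noncomputable def gen : Ix m → MvPolynomial (Ix m) ℚ := X

/-- The form `uu` with generic coefficients. -/
noncomputable def uF (a b : ℚ) : MvPolynomial (I m) (MvPolynomial (Ix m) ℚ) :=
  cG (swc gen) (0, 0) + C (C a) * cG (swc gen) (1, 1) + C (C b) * cG (swc gen) (0, 1)

theorem isHomogeneous_uF (a b : ℚ) : (uF a b : MvPolynomial (I m) _).IsHomogeneous (2 * m + 2) := by
  unfold uF
  have h : ∀ (r : ℚ) (p : I m × I m), ((C (C r) : MvPolynomial (I m) (MvPolynomial (Ix m) ℚ)) *
      cG (swc gen) p).IsHomogeneous (2 * m + 2) := by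
    intro r p
    have := (isHomogeneous_C (I m) (C r : MvPolynomial (Ix m) ℚ)).mul
      (isHomogeneous_cG (swc gen) p)
    rwa [zero_add] at this
  exact ((isHomogeneous_cG _ _).add (h a _)).add (h b _)

section spec

variable {k : Type*} [Field k] [Algebra ℚ k] (c : Ix m → k)

theorem spec_cG (p : I m × I m) : spec (I m) c (cG gen p) = cG c p := by
  rw [spec, map_cG]
  congr 1
  funext e
  exact aeval_X c e

theorem spec_cG' (p : I m × I m) : spec (I m) c (cG (swc gen) p) = cG (swc c) p := by
  rw [spec, map_cG]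
  congr 1
  funext e
  exact aeval_X c (sw e)

theorem eval_uF (a b : ℚ) (x : I m → k) : eval x (spec (I m) c (uF a b)) = uu a b c x := by
  unfold uF uu
  have h : ∀ r : ℚ, spec (I m) c (C (C r)) = C (algebraMap ℚ k r) := by
    intro r
    rw [spec, map_C]
    congr 1
    exact aeval_C c r
  simp only [map_add, map_mul, h, spec_cG', eval_C, eval_cG]

end spec

theorem eval_zero {d : ℕ} {k : Type*} [CommRing k] {σ : Type*} [Fintype σ]
    {F : MvPolynomial σ k} (hF : F.IsHomogeneous d) (hd : d ≠ 0) : eval 0 F = 0 := by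
  rw [eval_eq]
  refine Finset.sum_eq_zero fun e he => ?_
  have h := hF (mem_support_iff.1 he)
  have h1 : ∃ i, e i ≠ 0 := by
    by_contra hcon
    push Not at hcon
    have : e = 0 := Finsupp.ext hcon
    rw [this] at h
    simp at h
    exact hd h.symm
  obtain ⟨i, hi⟩ := h1
  have h2 : ∏ j ∈ e.support, (0 : σ → k) j ^ e j = 0 :=
    Finset.prod_eq_zero (Finsupp.mem_support_iff.2 hi) (by
      rw [Pi.zero_apply, zero_pow hi])
  rw [h2, mul_zero]

/-- The norm with generic coefficients. -/
theorem exists_nrm (m : ℕ) (a b : ℚ) : ∃ F : MvPolynomial (I m) (MvPolynomial (Ix m) ℚ),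
    F.IsHomogeneous ((2 * m + 2) * (2 * m + 2)) ∧
    ∀ (k : Type) [Field k] [Algebra ℚ k] (c : Ix m → k) (y : I m → k),
      ((∀ p, gG c y p = 0) → eval y (spec (I m) c F) = 0) ∧
      ∀ x x' : I m → k, (∀ p, gG c y p = Pool.Agent.Helper47.NI.pr x x' p) →
        eval y (spec (I m) c F) = 2 * (uu a b c x * uu a b c x') := by
  obtain ⟨H, hH, hval⟩ := Pool.Agent.Helper47.NI.exists_sym (R := MvPolynomial (Ix m) ℚ)
    (C 2⁻¹) (by
      have : (2 : MvPolynomial (Ix m) ℚ) = C 2 := by rw [map_ofNat]
      rw [this, ← map_mul, mul_inv_cancel₀ (two_ne_zero), map_one]) (2 * m + 2) (uF a b)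
      (uF a b) (isHomogeneous_uF a b) (isHomogeneous_uF a b)
  refine ⟨aeval (cG gen) H, hH.aeval _ (isHomogeneous_cG gen), ?_⟩
  intro k _ _ c y
  let φ : MvPolynomial (Ix m) ℚ →+* k := (aeval c : MvPolynomial (Ix m) ℚ →ₐ[ℚ] k).toRingHom
  have key : eval y (spec (I m) c (aeval (cG gen) H)) = eval₂ φ (gG c y) H := by
    have h1 : spec (I m) c (aeval (cG gen) H) = eval₂ ((spec (I m) c).comp C) (cG c) H := by
      rw [aeval_def, MvPolynomial.hom_eval₂]
      congr 1
      funext p
      exact spec_cG c p
    rw [h1, MvPolynomial.hom_eval₂]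
    congr 1
    · ext r
      · simp [spec, φ]
      · simp [spec, φ]
    · funext p
      exact eval_cG c y p
  refine ⟨fun h => ?_, fun x x' h => ?_⟩
  · have h2 : gG c y = 0 := funext h
    rw [key, h2]
    have h3 : eval₂ φ (0 : I m × I m → k) H = eval 0 (MvPolynomial.map φ H) := by
      rw [eval_map]
    rw [h3]
    have h4 : (MvPolynomial.map φ H).IsHomogeneous (2 * m + 2) := hH.map φ
    exact eval_zero h4 (by omega)
  · letI : Algebra (MvPolynomial (Ix m) ℚ) k := φ.toAlgebra
    have h2 : gG c y = Pool.Agent.Helper47.NI.pr x x' := funext h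
    have h3 := hval k x x'
    have h4 : ∀ z : I m → k, aeval z (uF a b : MvPolynomial (I m) (MvPolynomial (Ix m) ℚ)) =
        uu a b c z := by
      intro z
      rw [← eval_uF, spec, eval_map, aeval_def]
      rfl
    rw [h4, h4] at h3
    rw [key, h2]
    have h5 : eval₂ φ (Pool.Agent.Helper47.NI.pr x x') H =
        aeval (Pool.Agent.Helper47.NI.pr x x') H := by
      rw [aeval_def]
      rfl
    rw [h5, h3]
    ring

end Pool.Agent.Helper23.HNG
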