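import Pool.Agent.Helper23.HNG.Line

set_option autoImplicit false
set_option linter.unusedVariables false
set_option linter.unusedSectionVars false

/-!
# The sample: `L_r = x_r y_1 - x_(r+1) y_0 + x_(m+1) y_(r+2) + [r ≠ 0] x_0 y_(r+1)` and
`Q = x_(m+1)^2 y_0^2 - x_m^2 y_1^2 + x_0^2 y_(m+1)^2`
-/

namespace Pool.Agent.Helper23.HNG

open MvPolynomial Pool.Agent.Helper28.HN

variable {m : ℕ}

section sample

variable {S : Type*} [CommRing S]

/-- Kronecker delta. -/
def dd (a i : I m) : S := if i = a then 1 else 0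

theorem sum_dd (a : I m) (f : I m → S) : ∑ i, dd a i * f i = f a := by
  simp [dd]

theorem sum2 (a b : I m) (x y : I m → S) :
    ∑ i, ∑ j, dd a i * dd b j * x i * y j = x a * y b := by
  have h : ∀ i, ∑ j, dd a i * dd b j * x i * y j = dd a i * (x i * y b) := by
    intro i
    rw [← sum_dd b (fun j => dd a i * (x i * y j))]
    exact Finset.sum_congr rfl fun j _ => by ring
  simp only [h]
  exact sum_dd a (fun i => x i * y b)

theorem sum4 (a b c d : I m) (x x' y y' : I m → S) :
    ∑ i, ∑ j, ∑ k, ∑ l, dd a i * dd b j * dd c k * dd d l * x i * x' j * y k * y' l =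
      x a * x' b * y c * y' d := by
  have h : ∀ i j, ∑ k, ∑ l, dd a i * dd b j * dd c k * dd d l * x i * x' j * y k * y' l =
      dd a i * dd b j * x i * (x' j * (y c * y' d)) := by
    intro i j
    have h2 := sum2 c d (fun k => dd a i * dd b j * x i * x' j * y k) y'
    calc _ = ∑ k, ∑ l, dd c k * dd d l * (dd a i * dd b j * x i * x' j * y k) * y' l :=
          Finset.sum_congr rfl fun k _ => Finset.sum_congr rfl fun l _ => by ring
      _ = _ := h2
      _ = _ := by ring
  simp only [h]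
  rw [sum2 a b x (fun j => x' j * (y c * y' d))]
  ring

variable (m S) in
/-- The sample. -/
def sm : Ix m → S
  | .inl (r, i, j) => dd r.castSucc.castSucc i * dd 1 j - dd r.succ.castSucc i * dd 0 j +
      dd (Fin.last (m + 1)) i * dd r.succ.succ j +
      (if r.val = 0 then 0 else dd 0 i * dd r.castSucc.succ j)
  | .inr (i, j, k, l) => dd (Fin.last (m + 1)) i * dd (Fin.last (m + 1)) j * dd 0 k * dd 0 l -
      dd (Fin.last m).castSucc i * dd (Fin.last m).castSucc j * dd 1 k * dd 1 l +
      dd 0 i * dd 0 j * dd (Fin.last (m + 1)) k * dd (Fin.last (m + 1)) l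

theorem lf_sm (r : Fin m) (x y : I m → S) : lf (sm m S) r x y =
    x r.castSucc.castSucc * y 1 - x r.succ.castSucc * y 0 +
      x (Fin.last (m + 1)) * y r.succ.succ +
      (if r.val = 0 then 0 else x 0 * y r.castSucc.succ) := by
  unfold lf sm
  by_cases hr : r.val = 0
  · simp only [hr, if_true, add_zero, add_mul, sub_mul, Finset.sum_add_distrib,
      Finset.sum_sub_distrib, sum2]
  · simp only [hr, if_false, add_mul, sub_mul, Finset.sum_add_distrib,
      Finset.sum_sub_distrib, sum2]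

theorem qf_sm (x x' y y' : I m → S) : qf (sm m S) x x' y y' =
    4 * (x (Fin.last (m + 1)) * x' (Fin.last (m + 1)) * y 0 * y' 0 -
      x (Fin.last m).castSucc * x' (Fin.last m).castSucc * y 1 * y' 1 +
      x 0 * x' 0 * y (Fin.last (m + 1)) * y' (Fin.last (m + 1))) := by
  have h : ∀ i j k l : I m, pq (sm m S) i j k l * x i * x' j * y k * y' l =
      4 * (dd (Fin.last (m + 1)) i * dd (Fin.last (m + 1)) j * dd 0 k * dd 0 l *
        x i * x' j * y k * y' l) -
      4 * (dd (Fin.last m).castSucc i * dd (Fin.last m).castSucc j * dd 1 k * dd 1 l *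
        x i * x' j * y k * y' l) +
      4 * (dd 0 i * dd 0 j * dd (Fin.last (m + 1)) k * dd (Fin.last (m + 1)) l *
        x i * x' j * y k * y' l) := by
    intro i j k l
    simp only [pq, sm]
    ring
  unfold qf
  simp only [h, Finset.sum_add_distrib, Finset.sum_sub_distrib, ← Finset.mul_sum, sum4]
  ring

theorem map_sm {T : Type*} [CommRing T] (f : S →+* T) (e : Ix m) : f (sm m S e) = sm m T e := by
  have h : ∀ a i : I m, f (dd a i) = dd a i := by
    intro a i
    unfold dd
    split_ifs <;> simp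
  rcases e with ⟨r, i, j⟩ | ⟨i, j, k, l⟩
  · simp only [sm, map_add, map_sub, map_mul, h]
    split_ifs
    · simp
    · simp only [map_mul, h]
  · simp only [sm, map_add, map_sub, map_mul, h]

end sample

section kernel

variable {k : Type*} [Field k]

/-- Trivial kernel. -/
theorem NN_ne (A : Fin m → I m → k) (a b : I m)
    (h : ∀ z : I m → k, z a = 0 → z b = 0 → (∀ r, ∑ i, A r i * z i = 0) → z = 0) :
    NN A a b ≠ 0 := by
  rw [NN_eq]
  intro hdet
  obtain ⟨z, hz, hz2⟩ := Matrix.exists_mulVec_eq_zero_iff.2 hdet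
  refine hz (h z ?_ ?_ fun r => ?_)
  · have h1 := congrFun hz2 0
    rw [Matrix.mulVec, rows_zero] at h1
    simpa using h1
  · have h1 := congrFun hz2 1
    rw [Matrix.mulVec, rows_one] at h1
    simpa using h1
  · have h1 := congrFun hz2 r.succ.succ
    rw [Matrix.mulVec, rows_succ] at h1
    exact h1

theorem line_ge {S : Type*} [Zero S] (z : Fin 2 → S) {i : I m} (hi : 2 ≤ i.val) :
    line z i = 0 := by
  have key : ∀ i : I m, 2 ≤ i.val → line z i = 0 := by
    refine cases3 (fun h => ?_) (fun h => ?_) fun r _ => rfl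
    · exact absurd h (by simp)
    · exact absurd h (by simp)
  exact key i hi

theorem line_zero {S : Type*} [Zero S] (z : Fin 2 → S) : (line z : I m → S) 0 = z 0 := rfl

theorem line_one {S : Type*} [Zero S] (z : Fin 2 → S) : (line z : I m → S) 1 = z 1 := rfl

theorem lf_line (r : Fin m) (x : I m → k) (z : Fin 2 → k) : lf (sm m k) r x (line z) =
    x r.castSucc.castSucc * z 1 - x r.succ.castSucc * z 0 := by
  rw [lf_sm, line_zero, line_one, line_ge z (i := r.succ.succ) (by simp)]
  by_cases hr : r.val = 0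
  · simp [hr]
  · rw [line_ge z (i := r.castSucc.succ) (by simp; omega)]
    simp [hr]

theorem qf_line (hm : 1 ≤ m) (x x' : I m → k) (z : Fin 2 → k) :
    qf (sm m k) x x' (line z) (line z) =
    4 * (x (Fin.last (m + 1)) * x' (Fin.last (m + 1)) * z 0 ^ 2 -
      x (Fin.last m).castSucc * x' (Fin.last m).castSucc * z 1 ^ 2) := by
  rw [qf_sm, line_zero, line_one, line_ge z (i := Fin.last (m + 1)) (by simp; omega)]
  ring

/-- Recursion. -/
theorem rec_line {x : I m → k} {z : Fin 2 → k} (hz : z 0 ≠ 0)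
    (h : ∀ r, lf (sm m k) r x (line z) = 0) (i : Fin (m + 1)) :
    x i.castSucc = (z 1 / z 0) ^ i.val * x 0 := by
  induction i using Fin.induction with
  | zero => simp
  | succ r ih =>
    have h1 := h r
    rw [lf_line, ih] at h1
    have h4 : r.succ.val = r.castSucc.val + 1 := rfl
    rw [h4, pow_succ]
    field_simp
    field_simp at h1
    linear_combination -h1

/-- The non-zero form over the points of the line. -/
theorem gG_line [CharZero k] (hm : 1 ≤ m) {z : Fin 2 → k} (hz : z ≠ 0) :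
    ∃ p, gG (sm m k) (line z) p ≠ 0 := by
  have hdot : ∀ (r : Fin m) (j : I m),
      lf (sm m k) r (fun i => NN (rw' (sm m k) (line z)) i j) (line z) = 0 := by
    intro r j
    rw [lf_eq]
    exact dot_NN _ r j
  have h8 : (8 : k) ≠ 0 := by norm_num
  by_cases h0 : z 0 = 0
  · have h1 : z 1 ≠ 0 := by
      intro h1
      apply hz
      funext i
      fin_cases i
      · exact h0
      · exact h1
    refine ⟨(Fin.last (m + 1), Fin.last (m + 1)), ?_⟩
    have h2 : NN (rw' (sm m k) (line z)) (Fin.last m).castSucc (Fin.last (m + 1)) ≠ 0 := by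
      apply NN_ne
      intro v hv1 hv2 hv3
      funext i
      refine Fin.lastCases ?_ (fun i => ?_) i
      · exact hv2
      · refine Fin.lastCases ?_ (fun r => ?_) i
        · exact hv1
        · have h3 := hv3 r
          rw [← lf_eq, lf_line, h0, mul_zero, sub_zero] at h3
          exact (mul_eq_zero.1 h3).resolve_right h1
    have h3 : gG (sm m k) (line z) (Fin.last (m + 1), Fin.last (m + 1)) =
        2 * qf (sm m k) (fun i => NN (rw' (sm m k) (line z)) i (Fin.last (m + 1)))
          (fun i => NN (rw' (sm m k) (line z)) i (Fin.last (m + 1))) (line z) (line z) := rfl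
    rw [h3, qf_line hm, h0]
    have h4 : (2 : k) * (4 * (NN (rw' (sm m k) (line z)) (Fin.last (m + 1)) (Fin.last (m + 1)) *
        NN (rw' (sm m k) (line z)) (Fin.last (m + 1)) (Fin.last (m + 1)) * 0 ^ 2 -
        NN (rw' (sm m k) (line z)) (Fin.last m).castSucc (Fin.last (m + 1)) *
        NN (rw' (sm m k) (line z)) (Fin.last m).castSucc (Fin.last (m + 1)) * z 1 ^ 2)) =
        -(8 * (NN (rw' (sm m k) (line z)) (Fin.last m).castSucc (Fin.last (m + 1)) * z 1) ^ 2) := by
      ring
    rw [h4]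
    exact neg_ne_zero.2 (mul_ne_zero h8 (pow_ne_zero 2 (mul_ne_zero h2 h1)))
  · refine ⟨(0, 0), ?_⟩
    have h2 : NN (rw' (sm m k) (line z)) (Fin.last (m + 1)) 0 ≠ 0 := by
      apply NN_ne
      intro v hv1 hv2 hv3
      funext i
      refine Fin.lastCases ?_ (fun i => ?_) i
      · exact hv1
      · have h7 : ∀ r, lf (sm m k) r v (line z) = 0 := fun r => by
          rw [lf_eq]
          exact hv3 r
        rw [rec_line h0 h7 i, hv2, mul_zero]
        rfl
    have h5 : NN (rw' (sm m k) (line z)) (Fin.last m).castSucc 0 = 0 := by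
      have h6 : NN (rw' (sm m k) (line z)) (Fin.last m).castSucc 0 =
          (z 1 / z 0) ^ (Fin.last m).val * NN (rw' (sm m k) (line z)) 0 0 :=
        rec_line (x := fun i => NN (rw' (sm m k) (line z)) i 0) h0 (fun r => hdot r 0) (Fin.last m)
      rw [h6, NN_diag, mul_zero]
    have h3 : gG (sm m k) (line z) (0, 0) =
        2 * qf (sm m k) (fun i => NN (rw' (sm m k) (line z)) i 0)
          (fun i => NN (rw' (sm m k) (line z)) i 0) (line z) (line z) := rfl
    rw [h3, qf_line hm, h5]
    have h4 : (2 : k) * (4 * (NN (rw' (sm m k) (line z)) (Fin.last (m + 1)) 0 *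
        NN (rw' (sm m k) (line z)) (Fin.last (m + 1)) 0 * z 0 ^ 2 - 0 * 0 * z 1 ^ 2)) =
        8 * (NN (rw' (sm m k) (line z)) (Fin.last (m + 1)) 0 * z 0) ^ 2 := by
      ring
    rw [h4]
    exact mul_ne_zero h8 (pow_ne_zero 2 (mul_ne_zero h2 h0))

/-- The points `(1, τ, .., τ^m, ε τ^(m+1))`. -/
def Xp (m : ℕ) (ε τ : k) : I m → k :=
  Fin.snoc (fun i : Fin (m + 1) => τ ^ i.val) (ε * τ ^ (m + 1))

theorem Xp_castSucc (ε τ : k) (i : Fin (m + 1)) : Xp m ε τ i.castSucc = τ ^ i.val := by
  simp [Xp]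

theorem Xp_last (ε τ : k) : Xp m ε τ (Fin.last (m + 1)) = ε * τ ^ (m + 1) := by
  simp [Xp]

theorem Xp_zero (ε τ : k) : Xp m ε τ 0 = 1 := by
  have h := Xp_castSucc (m := m) ε τ 0
  simpa using h

/-- The points over a point of the line, first case. -/
theorem pts_line (hm : 1 ≤ m) [CharZero k] {x : I m → k} {z : Fin 2 → k} (hx : x ≠ 0)
    (hz : z 0 ≠ 0) (h : OnX (sm m k) x (line z)) :
    ∃ a : k, a ≠ 0 ∧ ∃ ε : k, (ε = 1 ∨ ε = -1) ∧ x = a • Xp m ε (z 1 / z 0) := by
  have h1 := rec_line hz h.1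
  have h2 := h.2
  have h4 : (4 : k) ≠ 0 := by norm_num
  rw [qf_line hm, h1, Fin.val_last] at h2
  have h3 : x (Fin.last (m + 1)) ^ 2 = ((z 1 / z 0) ^ (m + 1) * x 0) ^ 2 := by
    have h5 := (mul_eq_zero.1 h2).resolve_left h4
    have h6 : (z 1 / z 0) * z 0 = z 1 := div_mul_cancel₀ _ hz
    have h7 : z 0 ^ 2 * (x (Fin.last (m + 1)) ^ 2 - ((z 1 / z 0) ^ (m + 1) * x 0) ^ 2) = 0 := by
      rw [pow_succ (z 1 / z 0) m]
      linear_combination h5 - ((z 1 / z 0) ^ m * x 0) ^ 2 * (z 1 / z 0 * z 0 + z 1) * h6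
    exact sub_eq_zero.1 ((mul_eq_zero.1 h7).resolve_left (pow_ne_zero 2 hz))
  have h0 : x 0 ≠ 0 := by
    intro h0
    apply hx
    funext i
    refine Fin.lastCases ?_ (fun i => ?_) i
    · rw [h0, mul_zero, zero_pow two_ne_zero] at h3
      exact pow_eq_zero_iff two_ne_zero |>.1 h3
    · rw [h1, h0, mul_zero]
      rfl
  refine ⟨x 0, h0, ?_⟩
  rcases sq_eq_sq_iff_eq_or_eq_neg.1 h3 with h5 | h5
  · refine ⟨1, Or.inl rfl, ?_⟩
    funext i
    refine Fin.lastCases ?_ (fun i => ?_) i
    · rw [Pi.smul_apply, Xp_last, h5, smul_eq_mul]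
      ring
    · rw [Pi.smul_apply, Xp_castSucc, h1, smul_eq_mul]
      ring
  · refine ⟨-1, Or.inr rfl, ?_⟩
    funext i
    refine Fin.lastCases ?_ (fun i => ?_) i
    · rw [Pi.smul_apply, Xp_last, h5, smul_eq_mul]
      ring
    · rw [Pi.smul_apply, Xp_castSucc, h1, smul_eq_mul]
      ring

/-- The points over a point of the line, second case. -/
theorem pts_line' (hm : 1 ≤ m) [CharZero k] {x : I m → k} {z : Fin 2 → k} (hx : x ≠ 0)
    (hz : z ≠ 0) (hz0 : z 0 = 0) (h : OnX (sm m k) x (line z)) :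
    ∃ a : k, a ≠ 0 ∧ x = a • (Pi.single (Fin.last (m + 1)) 1 : I m → k) := by
  have hz1 : z 1 ≠ 0 := by
    intro h1
    apply hz
    funext i
    fin_cases i
    · exact hz0
    · exact h1
  have h4 : (4 : k) ≠ 0 := by norm_num
  have h1 : ∀ r : Fin m, x r.castSucc.castSucc = 0 := by
    intro r
    have h3 := h.1 r
    rw [lf_line, hz0, mul_zero, sub_zero] at h3
    exact (mul_eq_zero.1 h3).resolve_right hz1
  have h2 : x (Fin.last m).castSucc = 0 := by
    have h3 := h.2
    rw [qf_line hm, hz0] at h3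
    have h5 : 4 * (x (Fin.last m).castSucc * z 1) ^ 2 = 0 := by
      linear_combination -h3
    exact (mul_eq_zero.1 (pow_eq_zero_iff two_ne_zero |>.1
      ((mul_eq_zero.1 h5).resolve_left h4))).resolve_right hz1
  have h5 : x = x (Fin.last (m + 1)) • (Pi.single (Fin.last (m + 1)) 1 : I m → k) := by
    funext i
    refine Fin.lastCases ?_ (fun i => ?_) i
    · simp
    · rw [Pi.smul_apply, Pi.single_eq_of_ne (Fin.castSucc_lt_last i).ne, smul_zero]
      refine Fin.lastCases ?_ (fun r => ?_) i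
      · exact h2
      · exact h1 r
  refine ⟨x (Fin.last (m + 1)), ?_, h5⟩
  intro h6
  rw [h6, zero_smul] at h5
  exact hx h5

end kernel

end Pool.Agent.Helper23.HNG
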