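import Pool.Agent.Helper23.HNG.Smp

set_option autoImplicit false
set_option linter.unusedVariables false
set_option linter.unusedSectionVars false

/-!
# The forms of the sample over the points `(1, τ, .., τ^m, ± τ^(m+1))` and `(0, .., 0, 1)`
-/

namespace Pool.Agent.Helper23.HNG

open MvPolynomial Pool.Agent.Helper28.HN
open Pool.Agent.Helper37.RP (IsLine)

variable {m : ℕ} {k : Type*} [Field k]

theorem gG_x (x : I m → k) (a b : I m) : gG (swc (sm m k)) x (a, b) =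
    8 * (x (Fin.last (m + 1)) ^ 2 *
        (NN (rw' (swc (sm m k)) x) 0 a * NN (rw' (swc (sm m k)) x) 0 b) -
      x (Fin.last m).castSucc ^ 2 *
        (NN (rw' (swc (sm m k)) x) 1 a * NN (rw' (swc (sm m k)) x) 1 b) +
      x 0 ^ 2 * (NN (rw' (swc (sm m k)) x) (Fin.last (m + 1)) a *
        NN (rw' (swc (sm m k)) x) (Fin.last (m + 1)) b)) := by
  have h3 : gG (swc (sm m k)) x (a, b) =
      2 * qf (swc (sm m k)) (fun i => NN (rw' (swc (sm m k)) x) i a)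
        (fun i => NN (rw' (swc (sm m k)) x) i b) x x := rfl
  rw [h3, qf_sw, qf_sm]
  ring

theorem NNx_ne (x : I m → k) (a b : I m)
    (h : ∀ v : I m → k, v a = 0 → v b = 0 → (∀ r, lf (sm m k) r x v = 0) → v = 0) :
    NN (rw' (swc (sm m k)) x) a b ≠ 0 := by
  apply NN_ne
  intro z h1 h2 h3
  refine h z h1 h2 fun r => ?_
  rw [← lf_sw, lf_eq]
  exact h3 r

/-- The entry `(0,1)`. -/
theorem NN01_ne {x : I m → k} (hx : x (Fin.last (m + 1)) ≠ 0) :
    NN (rw' (swc (sm m k)) x) 0 1 ≠ 0 := by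
  apply NNx_ne
  intro v h0 h1 h
  have h2 : ∀ i : Fin (m + 1), v i.succ = 0 := by
    intro i
    induction i using Fin.induction with
    | zero => exact h1
    | succ r ih =>
      have h3 := h r
      rw [lf_sm, h0, h1, ih] at h3
      have h4 : x (Fin.last (m + 1)) * v r.succ.succ = 0 := by
        simpa using h3
      exact (mul_eq_zero.1 h4).resolve_left hx
  funext i
  refine Fin.cases ?_ (fun i => ?_) i
  · exact h0
  · exact h2 i

/-- The entry `(last, 0)` at `τ = 0`. -/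
theorem NNl0_ne (hm : 1 ≤ m) (ε : k) :
    NN (rw' (swc (sm m k)) (Xp m ε 0)) (Fin.last (m + 1)) 0 ≠ 0 := by
  apply NNx_ne
  intro v h0 h1 h
  have h2 : ∀ r : Fin m, v r.castSucc.succ = 0 := by
    intro r
    have h3 := h r
    rw [lf_sm, Xp_castSucc, Xp_castSucc, Xp_last, Xp_zero] at h3
    by_cases hr : r.val = 0
    · have h4 : r.castSucc.succ = 1 := by
        apply Fin.ext
        simp [hr]
      rw [h4]
      simpa [hr] using h3
    · simpa [hr] using h3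
  funext i
  refine Fin.cases ?_ (fun i => ?_) i
  · exact h1
  · refine Fin.lastCases ?_ (fun r => ?_) i
    · exact h0
    · exact h2 r

/-- The relation of the entries. -/
theorem NN_rel (hm : 1 ≤ m) (ε τ : k) :
    NN (rw' (swc (sm m k)) (Xp m ε τ)) (Fin.last (m + 1)) 1 =
      τ * NN (rw' (swc (sm m k)) (Xp m ε τ)) (Fin.last (m + 1)) 0 := by
  have h1 : IsLine (NN (rw' (swc (sm m k)) (Xp m ε τ))) (line ![1, τ]) := by
    apply isLine_NN
    intro r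
    have h2 : ∑ i, rw' (swc (sm m k)) (Xp m ε τ) r i * (line ![1, τ] : I m → k) i =
        lf (sm m k) r (Xp m ε τ) (line ![1, τ]) := by
      rw [← lf_sw, lf_eq]
    rw [h2, lf_line, Xp_castSucc, Xp_castSucc]
    have h4 : r.succ.val = r.castSucc.val + 1 := rfl
    rw [h4, pow_succ]
    simp
  have h3 := h1.cyc 0 1 (Fin.last (m + 1))
  rw [line_zero, line_one, line_ge _ (i := Fin.last (m + 1)) (by simp; omega)] at h3
  have h5 := h1.anti 1 (Fin.last (m + 1))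
  simp only [Matrix.cons_val_zero, Matrix.cons_val_one] at h3
  linear_combination h5 - h3

theorem H00 (hm : 1 ≤ m) (ε τ : k) : gG (swc (sm m k)) (Xp m ε τ) (0, 0) =
    8 * (NN (rw' (swc (sm m k)) (Xp m ε τ)) (Fin.last (m + 1)) 0 ^ 2 -
      (τ ^ m) ^ 2 * NN (rw' (swc (sm m k)) (Xp m ε τ)) 0 1 ^ 2) := by
  rw [gG_x, Xp_castSucc, Xp_last, Xp_zero, NN_diag, NN_anti _ 1 0, Fin.val_last]
  ring

theorem H01 (hm : 1 ≤ m) (ε τ : k) : gG (swc (sm m k)) (Xp m ε τ) (0, 1) =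
    8 * (τ * NN (rw' (swc (sm m k)) (Xp m ε τ)) (Fin.last (m + 1)) 0 ^ 2) := by
  rw [gG_x, Xp_castSucc, Xp_last, Xp_zero, NN_diag, NN_diag, NN_rel hm]
  ring

theorem H11 (hm : 1 ≤ m) (ε τ : k) : gG (swc (sm m k)) (Xp m ε τ) (1, 1) =
    8 * ((ε * τ ^ (m + 1)) ^ 2 * NN (rw' (swc (sm m k)) (Xp m ε τ)) 0 1 ^ 2 +
      (τ * NN (rw' (swc (sm m k)) (Xp m ε τ)) (Fin.last (m + 1)) 0) ^ 2) := by
  rw [gG_x, Xp_castSucc, Xp_last, Xp_zero, NN_diag, NN_rel hm]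
  ring

/-- Not both forms vanish. -/
theorem H_ne [CharZero k] (hm : 1 ≤ m) {ε : k} (hε : ε ≠ 0) (τ : k) :
    ¬ (gG (swc (sm m k)) (Xp m ε τ) (0, 0) = 0 ∧ gG (swc (sm m k)) (Xp m ε τ) (0, 1) = 0) := by
  rintro ⟨h0, h1⟩
  have h8 : (8 : k) ≠ 0 := by norm_num
  rw [H00 hm] at h0
  rw [H01 hm] at h1
  have h2 := (mul_eq_zero.1 h0).resolve_left h8
  have h3 := (mul_eq_zero.1 h1).resolve_left h8
  by_cases hτ : τ = 0
  · subst hτ
    rw [zero_pow (by omega : m ≠ 0), zero_pow two_ne_zero, zero_mul, sub_zero] at h2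
    exact NNl0_ne hm ε (pow_eq_zero_iff two_ne_zero |>.1 h2)
  · have h4 := (mul_eq_zero.1 h3).resolve_left hτ
    rw [h4, zero_sub, neg_eq_zero] at h2
    have h5 := (mul_eq_zero.1 h2).resolve_left (pow_ne_zero 2 (pow_ne_zero m hτ))
    refine NN01_ne (m := m) (x := Xp m ε τ) ?_ (pow_eq_zero_iff two_ne_zero |>.1 h5)
    rw [Xp_last]
    exact mul_ne_zero hε (pow_ne_zero _ hτ)

variable [Algebra ℚ k]

theorem uu_Xp0 [CharZero k] (hm : 1 ≤ m) (ε : k) : uu 1 0 (sm m k) (Xp m ε 0) ≠ 0 := by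
  have h8 : (8 : k) ≠ 0 := by norm_num
  rw [uu, H00 hm, H01 hm, H11 hm]
  have h := NNl0_ne hm ε
  have h2 : (0 : k) ^ m = 0 := zero_pow (by omega)
  rw [h2]
  have e : (8 * (NN (rw' (swc (sm m k)) (Xp m ε 0)) (Fin.last (m + 1)) 0 ^ 2 -
      0 ^ 2 * NN (rw' (swc (sm m k)) (Xp m ε 0)) 0 1 ^ 2) +
      algebraMap ℚ k 1 * (8 * ((ε * 0 ^ (m + 1)) ^ 2 *
        NN (rw' (swc (sm m k)) (Xp m ε 0)) 0 1 ^ 2 +
        (0 * NN (rw' (swc (sm m k)) (Xp m ε 0)) (Fin.last (m + 1)) 0) ^ 2)) +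
      algebraMap ℚ k 0 * (8 * (0 * NN (rw' (swc (sm m k)) (Xp m ε 0)) (Fin.last (m + 1)) 0 ^ 2))) =
      8 * NN (rw' (swc (sm m k)) (Xp m ε 0)) (Fin.last (m + 1)) 0 ^ 2 := by
    rw [zero_pow (by omega : m + 1 ≠ 0)]
    ring
  rw [e]
  exact mul_ne_zero h8 (pow_ne_zero 2 h)

theorem uu_el [CharZero k] (hm : 1 ≤ m) :
    uu 1 0 (sm m k) (Pi.single (Fin.last (m + 1)) 1) ≠ 0 := by
  have h8 : (8 : k) ≠ 0 := by norm_num
  have h1 : NN (rw' (swc (sm m k)) (Pi.single (Fin.last (m + 1)) 1)) 0 1 ≠ 0 := by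
    apply NN01_ne
    rw [Pi.single_eq_same]
    exact one_ne_zero
  have h2 : (Pi.single (Fin.last (m + 1)) 1 : I m → k) (Fin.last m).castSucc = 0 :=
    Pi.single_eq_of_ne (Fin.castSucc_lt_last _).ne _
  have h3 : (Pi.single (Fin.last (m + 1)) 1 : I m → k) 0 = 0 :=
    Pi.single_eq_of_ne (Fin.last_pos).ne _
  rw [uu, gG_x, gG_x, h2, h3, Pi.single_eq_same, map_one, map_zero, NN_diag _ 0]
  have e : (8 : k) * (1 ^ 2 * (0 * 0) - 0 ^ 2 *
      (NN (rw' (swc (sm m k)) (Pi.single (Fin.last (m + 1)) 1)) 1 0 *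
        NN (rw' (swc (sm m k)) (Pi.single (Fin.last (m + 1)) 1)) 1 0) + 0 ^ 2 *
      (NN (rw' (swc (sm m k)) (Pi.single (Fin.last (m + 1)) 1)) (Fin.last (m + 1)) 0 *
        NN (rw' (swc (sm m k)) (Pi.single (Fin.last (m + 1)) 1)) (Fin.last (m + 1)) 0)) +
      1 * (8 * (1 ^ 2 * (NN (rw' (swc (sm m k)) (Pi.single (Fin.last (m + 1)) 1)) 0 1 *
        NN (rw' (swc (sm m k)) (Pi.single (Fin.last (m + 1)) 1)) 0 1) - 0 ^ 2 *
      (NN (rw' (swc (sm m k)) (Pi.single (Fin.last (m + 1)) 1)) 1 1 *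
        NN (rw' (swc (sm m k)) (Pi.single (Fin.last (m + 1)) 1)) 1 1) + 0 ^ 2 *
      (NN (rw' (swc (sm m k)) (Pi.single (Fin.last (m + 1)) 1)) (Fin.last (m + 1)) 1 *
        NN (rw' (swc (sm m k)) (Pi.single (Fin.last (m + 1)) 1)) (Fin.last (m + 1)) 1))) =
      8 * NN (rw' (swc (sm m k)) (Pi.single (Fin.last (m + 1)) 1)) 0 1 ^ 2 := by
    ring
  rw [zero_mul (gG (swc (sm m k)) (Pi.single (Fin.last (m + 1)) 1) (0, 1)), add_zero, e]
  exact mul_ne_zero h8 (pow_ne_zero 2 h1)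

end Pool.Agent.Helper23.HNG
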